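import Pool.Agent.NH25.DG.Cyc
import Pool.Agent.NH25.CV.All
import Pool.Agent.NH25.CV.IMG
import Pool.Agent.NH25.CV.CIM
import Pool.Agent.Y916.Sl.Many
import Pool.Agent.Y123.GN.E7

/-!
# The degree-bounded statement at almost all algebraic points, for all families of curves

Let `F(z, x, y)` be a polynomial over `ℚ̄`, monic in `y`, and `Q(z, x)` a nonzero polynomial over `ℚ̄` such that `F(z, x, Y)` has no
multiple root when `Q(z, x) ≠ 0`. The affine curves `U_z = {F(z, x, y) = 0, Q(z, x) ≠ 0}` form a family of curves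
(`CurveFamily`); every family of smooth curves over a curve is of this form over an open subset of the base, and the
forms `P(z, x, y) dx / Q(z, x) ^ k` are all the regular relative forms. A `TransportedLoop` is a closed path
`(x(t), y(c, t))` on `U_c` (avoiding the points over the zeros of `Q(c, x)`) together with its transport
`(x(t), y(z, t))` to the neighbouring fibres; by the theorem on implicit functions every closed path on `U_c` with
continuously differentiable `x(t)` has a unique transport for small `|z - c|`. The periods are the integrals over transported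
loops.

For `p` families of curves with parameters `z_1, …, z_p`, let `P'(z)` be a finite set of functions which are rational
functions over `ℚ̄(z)` of the periods and of arbitrary constants (`RationalIn`). So `P'` can be, near a point of the base, the period
matrix of `H ^ j`, `j` arbitrary, of every family whose motive is in the tensor category generated by families of curves: products of
curves, abelian schemes (all `H ^ j`), Kummer surfaces, diagonal hypersurfaces, symmetric powers, etc.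

For a number field `K₀` and an algebraic point `s` the field of definition is `κ(s) = K₀(s_1, …, s_p)`. The degree
`δ` statement (`DegreeStatement`) at `s`: for every polynomial `G₀` with coefficients in `κ(s)` and of total degree at most `δ` in
the functions `P'`, with `G₀(P'(s)) = 0`,

* `G₀` is the value at `s` of a polynomial `G` over `ℚ̄[z_1, …, z_p]` of total degree at most `δ` with `G(z, P'(z)) = 0` for all `z` near
  the centre;
* in particular `G₀` is in the ideal of the fibre over `s` of the Zariski closure over `ℚ̄` of the graph of `P'`, i.e. it is not a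
  relation of degree at most `δ` over `κ(s)` in the sense of the problem.

**Theorem.** There is a finite set `E` of complex numbers such that for all centres `c` with algebraic coordinates outside `E`
the following holds for all transported loops and constants. Let `m_l ≥ 1` and `0 < η ≤ 1`. For all `T ≥ 1` and all
integers `a_l` in `[1, T ^ (1 - η)]` we consider the points `s = c + (a_1 / β_1, …, a_p / β_p)` where `β_l` is an algebraic integer of
degree at most `m_l` all of whose conjugates are bounded by `T`. The number of the tuples `β` is at least `c₀ T ^ M`, with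
`M = ∑ m_l (m_l + 1) / 2` (the right order of magnitude). For all `δ` and `D` there are `c > 0` and `C` such that for all number
fields `K₀` of degree at most `D` the degree `δ` statement holds for all but `C T ^ (M - c)` of the tuples. Moreover there are
functions `d(T) → ∞` and `ε(T) → 0` such that for all number fields `K₀` of degree at most `d(T)` the degree `d(T)`
statement holds for all but `ε(T) T ^ M` of the tuples. (The functions are written in the coordinate `z - c`.)

There is no hypothesis on the monodromy or on the Hodge locus. What was known: the points with the degree `δ` property are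
dense in the analytic topology; for `y ^ 2 = g(x) (x - t)` they contain almost all integers `t`. The starting files treat
the points with `1 / z_l` an integer, for families of cyclic covers `y ^ N = (x - z) ^ e₀ ∏ (x - a_j) ^ e_j` and a fixed number
field `K`.

Proof. 1 (`Pool/Agent/NH25/CV`, with many coauthors): the theorem of André that the periods of families of curves are given by
G-functions. Over the algebraic closure `E` of `ℚ̄(z)` the reduction of a form with poles of order `n` modulo exact forms has the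
denominator `lcm(1, …, C n)` over a finitely generated subring of `E`: near each pole one takes the truncated primitive
of the Puiseux expansions, which have coefficients in a finitely generated ring, and corrects by partial fractions. The
divided powers of `d/dz` are integral on the coordinate ring. So the Gauss-Manin system has the property of Galočkin.
2 (`Pool/Agent/NH25/DG`): if many translates `β + g` of an algebraic number have a relation with coefficients in a space over
`ℚ` of bounded dimension, the products of a basis of the monomials in the entries of the fundamental matrix at these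
points generate a space of small dimension; this contradicts a lower bound by a Siegel lemma argument. 3: outside a
hypersurface the relations between rational functions of the periods specialise well.
-/

set_option autoImplicit false

open PowerSeries Filter

namespace Pool.Agent.Results.MP_290158_ag.AllFamiliesOfCurves

section systems

variable {L : Type} [Field L]

/-- The arithmetic conditions in the definition of a G-function over the number field `L`: geometric growth of all
conjugates of the coefficients and of their common denominators. -/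
def GFunction (g : PowerSeries L) : Prop := ∃ A : ℝ, (∀ (φ : L →+* ℂ) (m : ℕ), ‖φ (coeff m g)‖ ≤ A ^ (m + 1)) ∧
  ∀ m, ∃ d : ℕ, 0 < d ∧ (d : ℝ) ≤ A ^ (m + 1) ∧ ∀ j ≤ m, IsIntegral ℤ ((d : L) * coeff j g)

/-- `Z` is a fundamental matrix (rows: solutions) of a differential system over `L(z)` which is regular at `0`, and the
entries of `Z` and of the inverse matrix are G-functions. -/
structure GMatrix {n : ℕ} (Z : Matrix (Fin n) (Fin n) (PowerSeries L)) : Prop where
  /-- the system: `f Z' = Z A` with `f(0) ≠ 0` -/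
  ode : ∃ (f : Polynomial L) (A : Matrix (Fin n) (Fin n) (Polynomial L)), f.coeff 0 ≠ 0 ∧
    ∀ i j, (f : PowerSeries L) * PowerSeries.derivative L (Z i j) = ∑ k, Z i k * (A k j : PowerSeries L)
  /-- the entries are G-functions -/
  gfun : ∀ i j, GFunction (Z i j)
  /-- the entries of the inverse matrix are G-functions -/
  inv : ∃ W : Matrix (Fin n) (Fin n) (PowerSeries L), W * Z = 1 ∧ ∀ i j, GFunction (W i j)

/-- the value of a power series -/
noncomputable def value [Algebra L ℂ] (g : PowerSeries L) (z : ℂ) : ℂ := ∑' m : ℕ, algebraMap L ℂ (coeff m g) * z ^ m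

end systems

/-- There are a number field `L` in `ℂ` and fundamental matrices `Z_1, …, Z_p` of G-functions over `L` such that every
function `P i`, restricted to the polydisc of radius `ρ`, is for some `l` a linear combination, with complex coefficients, of `1`
and the entries of `Z_l(z_l)`. -/
def GRepresented {p : ℕ} {ι : Type} (P : (Fin p → ℂ) → ι → ℂ) (ρ : ℝ) : Prop :=
  ∃ (L : Type) (_ : Field L) (_ : NumberField L) (_ : Algebra L ℂ) (n : Fin p → ℕ)
    (Z : ∀ l, Matrix (Fin (n l)) (Fin (n l)) (PowerSeries L)), (∀ l, GMatrix (Z l)) ∧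
    ∀ i, ∃ (l : Fin p) (c₀ : ℂ) (c : Matrix (Fin (n l)) (Fin (n l)) ℂ), ∀ z : Fin p → ℂ, (∀ l, ‖z l‖ < ρ) →
      P z i = c₀ + ∑ a, ∑ b, c a b * value (Z l a b) (z l)

section statement

/-- The field of all algebraic numbers. -/
noncomputable abbrev QBar : IntermediateField ℚ ℂ := algebraicClosure ℚ ℂ

variable {p : ℕ} {ι : Type}

/-- a polynomial over `ℚ̄[z_1, …, z_p]` at a point `z` -/
noncomputable def special (G : MvPolynomial ι (MvPolynomial (Fin p) QBar)) (z : Fin p → ℂ) : MvPolynomial ι ℂ :=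
  G.map (MvPolynomial.aeval z : MvPolynomial (Fin p) QBar →ₐ[QBar] ℂ).toRingHom

/-- `G(z, P(z)) = 0` for all `z` in the polydisc of radius `r` -/
def Holds (P : (Fin p → ℂ) → ι → ℂ) (r : ℝ) (G : MvPolynomial ι (MvPolynomial (Fin p) QBar)) : Prop :=
  ∀ z : Fin p → ℂ, (∀ l, ‖z l‖ < r) → MvPolynomial.aeval (P z) (special G z) = 0

/-- The fibre over `s` of the Zariski closure over the algebraic numbers of the graph of `P` over the polydisc of radius
`r`. -/
def closureFibre (P : (Fin p → ℂ) → ι → ℂ) (r : ℝ) (s : Fin p → ℂ) : Set (ι → ℂ) :=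
  {y | ∀ G : MvPolynomial ι (MvPolynomial (Fin p) QBar), Holds P r G → MvPolynomial.aeval y (special G s) = 0}

/-- The residue field `κ(s) = K₀(s_1, …, s_p)`. -/
noncomputable def residueField (K₀ : IntermediateField ℚ ℂ) (s : Fin p → ℂ) : IntermediateField ℚ ℂ :=
  K₀ ⊔ IntermediateField.adjoin ℚ (Set.range s)

/-- The degree `δ` statement at `s`: every polynomial `F` of total degree at most `δ` with coefficients in `κ(s)` which
vanishes at `P(s)` is the value at `s` of a relation over `ℚ̄[z]`, of total degree at most `δ`, which holds on the graph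
of `P`; and it vanishes on the fibre over `s` of the Zariski closure of this graph. -/
def DegreeStatement (P : (Fin p → ℂ) → ι → ℂ) (r : ℝ) (K₀ : IntermediateField ℚ ℂ) (δ : ℕ) (s : Fin p → ℂ) : Prop :=
  ∀ F : MvPolynomial ι (residueField K₀ s), F.totalDegree ≤ δ → MvPolynomial.aeval (P s) F = 0 →
    (∃ G : MvPolynomial ι (MvPolynomial (Fin p) QBar), G.totalDegree ≤ δ ∧ Holds P r G ∧
      special G s = F.map (algebraMap (residueField K₀ s) ℂ)) ∧
    ∀ y ∈ closureFibre P r s, MvPolynomial.aeval y F = 0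

end statement

/-- algebraic integers of degree at most `m` all of whose conjugates have absolute value at most `T` -/
def House (m T : ℕ) (ξ : ℂ) : Prop :=
  IsIntegral ℤ ξ ∧ (minpoly ℚ ξ).natDegree ≤ m ∧ ∀ z : ℂ, Polynomial.aeval z (minpoly ℚ ξ) = 0 → ‖z‖ ≤ T

/-- the tuples `β` -/
def Tuples {p : ℕ} (m : Fin p → ℕ) (T : ℕ) : Set (Fin p → ℂ) := {β | ∀ l, House (m l) T (β l)}

/-- the exponent `∑ m_l (m_l + 1) / 2` -/
def size {p : ℕ} (m : Fin p → ℕ) : ℕ := ∑ l, m l * (m l + 1) / 2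

/-- The tuples `β` for which the point `s = (a_1 / β_1, …, a_p / β_p)` is not in the polydisc of radius `r` or the degree `δ`
statement at `s` fails. -/
def Exceptional {p : ℕ} {ι : Type} (P : (Fin p → ℂ) → ι → ℂ) (r : ℝ) (K₀ : IntermediateField ℚ ℂ) (δ : ℕ) (m : Fin p → ℕ)
    (T : ℕ) (a : Fin p → ℕ) : Set (Fin p → ℂ) :=
  {β | β ∈ Tuples m T ∧ ¬ ((∀ l, ‖(a l : ℂ) / β l‖ < r) ∧ DegreeStatement P r K₀ δ fun l => (a l : ℂ) / β l)}

/-- The conclusion of the theorem, for a family of functions `P` on the polydisc of radius `ρ`. -/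
def AlmostAll {p : ℕ} {ι : Type} (P : (Fin p → ℂ) → ι → ℂ) (ρ : ℝ) : Prop :=
  ∃ r : ℝ, 0 < r ∧ r ≤ ρ ∧ ∀ (m : Fin p → ℕ) (η : ℝ), (∀ l, 1 ≤ m l) → 0 < η → η ≤ 1 →
    (∀ δ D : ℕ, ∃ c C : ℝ, 0 < c ∧ ∀ K₀ : IntermediateField ℚ ℂ, FiniteDimensional ℚ K₀ → Module.finrank ℚ K₀ ≤ D →
      ∀ T : ℕ, 1 ≤ T → ∀ a : Fin p → ℕ, (∀ l, 1 ≤ a l ∧ (a l : ℝ) ≤ (T : ℝ) ^ (1 - η)) →
      ((Exceptional P r K₀ δ m T a).ncard : ℝ) ≤ C * (T : ℝ) ^ ((size m : ℝ) - c)) ∧
    (∃ (d : ℕ → ℕ) (ε : ℕ → ℝ), Tendsto d atTop atTop ∧ Tendsto ε atTop (nhds 0) ∧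
      ∀ (T : ℕ) (K₀ : IntermediateField ℚ ℂ), 1 ≤ T → FiniteDimensional ℚ K₀ → Module.finrank ℚ K₀ ≤ d T →
      ∀ a : Fin p → ℕ, (∀ l, 1 ≤ a l ∧ (a l : ℝ) ≤ (T : ℝ) ^ (1 - η)) →
      ((Exceptional P r K₀ (d T) m T a).ncard : ℝ) ≤ ε T * (T : ℝ) ^ size m)

section rational

/-- The functions `P' i` are rational functions over `ℚ̄(z)` of the functions `P` near `0`:
`P' i = Φ i (z, P(z)) / φ(z)` with `φ(0) ≠ 0`. -/
def RationalIn {p : ℕ} {ι ι' : Type} (P : (Fin p → ℂ) → ι → ℂ) (P' : (Fin p → ℂ) → ι' → ℂ) (ρ : ℝ) : Prop :=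
  ∃ (Φ : ι' → MvPolynomial ι (MvPolynomial (Fin p) QBar)) (φ : MvPolynomial (Fin p) QBar),
    MvPolynomial.aeval (0 : Fin p → ℂ) φ ≠ 0 ∧ ∀ z : Fin p → ℂ, (∀ l, ‖z l‖ < ρ) → ∀ i,
      MvPolynomial.aeval z φ * P' z i = MvPolynomial.aeval (P z) (special (Φ i) z)

end rational

section curves

/-- The polynomial `F(z, x, Y)` in `Y`, for `F` in `ℚ̄[z][x][Y]`. -/
noncomputable def fibre (F : Polynomial (Polynomial (Polynomial QBar))) (z x : ℂ) : Polynomial ℂ :=
  F.map ((Polynomial.evalRingHom x).comp (Polynomial.mapRingHom (Polynomial.eval₂RingHom (algebraMap QBar ℂ) z)))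

/-- The value `Q(z, x)`, for `Q` in `ℚ̄[z][x]`. -/
noncomputable def point (Q : Polynomial (Polynomial QBar)) (z x : ℂ) : ℂ :=
  (Q.map (Polynomial.eval₂RingHom (algebraMap QBar ℂ) z)).eval x

/-- A family of curves `U_z : F(z, x, y) = 0, Q(z, x) ≠ 0` over the algebraic numbers, unramified over the `x`-line without the
zeros of `Q(z, x)`, with `r` forms `P_i(z, x, y) dx / Q(z, x) ^ k_i`. -/
structure CurveFamily where
  F : Polynomial (Polynomial (Polynomial QBar))
  Q : Polynomial (Polynomial QBar)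
  /-- `F` is monic in `y` -/
  monic : F.Monic
  degree_pos : 0 < F.natDegree
  ne_zero : Q ≠ 0
  /-- if `Q(z, x) ≠ 0` then `F(z, x, Y)` has no multiple root -/
  unramified : ∀ z x : ℂ, point Q z x ≠ 0 → (fibre F z x).Separable
  /-- the number of forms -/
  r : ℕ
  P : Fin r → Polynomial (Polynomial (Polynomial QBar))
  k : Fin r → ℕ

/-- A closed path on the curve `U_c` and its transport `(x(t), y(z, t))` to the curves `U_z`, `|z - c| < ρ`. -/
structure TransportedLoop (X : CurveFamily) (c : ℂ) (ρ : ℝ) where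
  x : ℝ → ℂ
  y : ℂ → ℝ → ℂ
  smooth : ContDiff ℝ 1 x
  continuous : ContinuousOn (fun v : ℂ × ℝ => y v.1 v.2) (Metric.ball c ρ ×ˢ Set.Icc (0 : ℝ) 1)
  closed_x : x 0 = x 1
  closed_y : ∀ z ∈ Metric.ball c ρ, y z 0 = y z 1
  curve : ∀ z ∈ Metric.ball c ρ, ∀ t ∈ Set.Icc (0 : ℝ) 1, (fibre X.F z (x t)).eval (y z t) = 0
  away : ∀ z ∈ Metric.ball c ρ, ∀ t ∈ Set.Icc (0 : ℝ) 1, point X.Q z (x t) ≠ 0

/-- The period of the `i`-th form over the transported loop on `U_z`. -/
noncomputable def period {X : CurveFamily} {c : ℂ} {ρ : ℝ} (γ : TransportedLoop X c ρ) (i : Fin X.r) (z : ℂ) : ℂ :=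
  ∫ t in (0 : ℝ)..1, (fibre (X.P i) z (γ.x t)).eval (γ.y z t) / point X.Q z (γ.x t) ^ X.k i * deriv γ.x t

/-- The periods of `p` families of curves over `σ l` transported loops, as functions of `z - c`, and the constants `w`. -/
noncomputable def periods {p q : ℕ} (X : Fin p → CurveFamily) (c : Fin p → ℂ) {ρ : ℝ} {σ : Fin p → ℕ}
    (γ : ∀ l, Fin (σ l) → TransportedLoop (X l) (c l) ρ) (w : Fin q → ℂ) (z : Fin p → ℂ) :
    (Σ l, Fin (σ l) × Fin (X l).r) ⊕ Fin q → ℂ :=
  Sum.elim (fun v => period (γ v.1 v.2.1) v.2.2 (c v.1 + z v.1)) w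

end curves

section proof

open Pool.Agent.NH25.DG Pool.Agent.Y921.DB Pool.Agent.Y916

variable {p : ℕ} {ι : Type}

theorem holds_iff {P : (Fin p → ℂ) → ι → ℂ} {r : ℝ} {G : MvPolynomial ι (MvPolynomial (Fin p) QBar)} :
    Holds P r G ↔ ∀ z : Fin p → ℂ, (∀ l, ‖z l‖ < r) →
      G.eval₂ (MvPolynomial.aeval z : MvPolynomial (Fin p) QBar →ₐ[QBar] ℂ).toRingHom (P z) = 0 := by
  have h1 : ∀ z : Fin p → ℂ, MvPolynomial.aeval (P z) (special G z) =
      G.eval₂ (MvPolynomial.aeval z : MvPolynomial (Fin p) QBar →ₐ[QBar] ℂ).toRingHom (P z) := by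
    intro z
    unfold special
    rw [MvPolynomial.aeval_def, MvPolynomial.eval₂_map]
    rfl
  unfold Holds
  simp only [h1]

theorem degree_of_spec {P : (Fin p → ℂ) → ι → ℂ} {r : ℝ} {K₀ : IntermediateField ℚ ℂ} {δ : ℕ} {s : Fin p → ℂ}
    (h : SpecQ (K₀ ⊔ IntermediateField.adjoin ℚ (Set.range s)) P r δ s) : DegreeStatement P r K₀ δ s := by
  intro F hF h0
  have hmap : ∀ y : ι → ℂ, MvPolynomial.aeval y (F.map (algebraMap (residueField K₀ s) ℂ)) = MvPolynomial.aeval y F := by
    intro y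
    rw [MvPolynomial.aeval_map_algebraMap]
  obtain ⟨G, h1, h2, h3⟩ := h (F.map (algebraMap (residueField K₀ s) ℂ))
    ((Finset.sup_mono (MvPolynomial.support_map_subset _ _)).trans hF) (fun e => by
      rw [MvPolynomial.coeff_map]
      exact (F.coeff e).2) (by rw [hmap]; exact h0)
  refine ⟨⟨G, h1, holds_iff.2 h2, h3⟩, fun y hy => ?_⟩
  rw [← hmap, ← h3]
  exact hy G (holds_iff.2 h2)

theorem almost_of {P : (Fin p → ℂ) → ι → ℂ} {ρ : ℝ} (h : ∃ r : ℝ, 0 < r ∧ r ≤ ρ ∧ ∀ (δ D : ℕ) (m : Fin p → ℕ) (η : ℝ),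
    0 < η → η ≤ 1 → ∃ c C : ℝ, 0 < c ∧ 0 ≤ C ∧
      ∀ K₀ : IntermediateField ℚ ℂ, FiniteDimensional ℚ K₀ → Module.finrank ℚ K₀ ≤ D → ∀ T : ℕ, 1 ≤ T →
      ∀ a : Fin p → ℕ, (∀ i, 1 ≤ a i ∧ (a i : ℝ) ≤ (T : ℝ) ^ (1 - η)) →
      ((Set.ncard {β : Fin p → ℂ | β ∈ Fintype.piFinset (fun l : Fin p => Sl.NF (m l) T) ∧
        ¬ ((∀ l, ‖(a l : ℂ) / β l‖ < r) ∧
          SpecQ (K₀ ⊔ IntermediateField.adjoin ℚ (Set.range fun l => (a l : ℂ) / β l)) P r δ
            (fun l => (a l : ℂ) / β l))} : ℕ) : ℝ) ≤ C * (T : ℝ) ^ (((∑ l, Sl.Mm (m l) : ℕ) : ℝ) - c)) :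
    AlmostAll P ρ := by
  obtain ⟨r, hr, hrρ, h⟩ := h
  refine ⟨r, hr, hrρ, fun m η hm hη hη1 => ?_⟩
  have hexp : size m = ∑ l, Sl.Mm (m l) := Finset.sum_congr rfl fun l _ => (Sl.Mm_eq (m l)).symm
  have hmain : ∀ δ D : ℕ, ∃ c C : ℝ, 0 < c ∧ ∀ K₀ : IntermediateField ℚ ℂ, FiniteDimensional ℚ K₀ →
      Module.finrank ℚ K₀ ≤ D → ∀ T : ℕ, 1 ≤ T → ∀ a : Fin p → ℕ, (∀ l, 1 ≤ a l ∧ (a l : ℝ) ≤ (T : ℝ) ^ (1 - η)) →
      ((Exceptional P r K₀ δ m T a).ncard : ℝ) ≤ C * (T : ℝ) ^ ((size m : ℝ) - c) := by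
    intro δ D
    obtain ⟨c, C, hc, -, hC⟩ := h δ D m η hη hη1
    refine ⟨c, C, hc, fun K₀ hK₀ hKD T hT a ha => ?_⟩
    have h5 := hC K₀ hK₀ hKD T hT a ha
    rw [← hexp] at h5
    refine le_trans ?_ h5
    refine Nat.cast_le.2 (Set.ncard_le_ncard (fun β hβ => ?_) ((Finset.finite_toSet _).subset fun β hβ => hβ.1))
    obtain ⟨h1, h2⟩ := hβ
    refine ⟨Fintype.mem_piFinset.2 fun l => ?_, fun hh => h2 ⟨hh.1, degree_of_spec hh.2⟩⟩
    exact Sl.mem_NF.2 (Sl.SInt.aint (h1 l))
  refine ⟨hmain, ?_⟩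
  choose c C hc hcount using hmain
  obtain ⟨d, hd, hε⟩ := Pool.Agent.Y123.GN.diag_seq (fun D T => C D D * (1 / (T : ℝ) ^ (c D D))) (by
    intro D
    have h2 : Tendsto (fun N : ℕ => (1 : ℝ) / (N : ℝ) ^ (c D D)) atTop (nhds 0) := by
      have h3 := (tendsto_rpow_atTop (hc D D)).comp tendsto_natCast_atTop_atTop
      have h4 := h3.inv_tendsto_atTop
      refine h4.congr fun N => ?_
      rw [one_div]
      rfl
    have h5 := h2.const_mul (C D D)
    rw [mul_zero] at h5
    exact h5)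
  refine ⟨d, _, hd, hε, ?_⟩
  intro T K₀ hT hK₀ hKD a ha
  refine (hcount (d T) (d T) K₀ hK₀ hKD T hT a ha).trans (le_of_eq ?_)
  have hT0 : (0 : ℝ) < T := by exact_mod_cast hT
  rw [Real.rpow_sub hT0, Real.rpow_natCast]
  ring

end proof

section proof

open Pool.Agent.NH25.DG Pool.Agent.NH25.CV

variable {p : ℕ} {ι ι' : Type}

theorem almost_of_cnt {P : (Fin p → ℂ) → ι → ℂ} {ρ r : ℝ} (hr : 0 < r) (hrρ : r ≤ ρ) (h : Cnt P r) : AlmostAll P ρ := by
  classical
  refine almost_of ⟨r, hr, hrρ, fun δ D m η hη hη1 => ?_⟩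
  obtain ⟨c, C, hc, hC0, hC⟩ := h δ D m η hη hη1
  refine ⟨c, C, hc, hC0, fun K₀ hK₀ hKD T hT a ha => le_trans (le_of_eq ?_) (hC K₀ hK₀ hKD T hT a ha)⟩
  rw [← Set.ncard_coe_finset, Finset.coe_filter]

theorem AlmostAll.mono {P : (Fin p → ℂ) → ι → ℂ} {ρ ρ' : ℝ} (h : AlmostAll P ρ') (hρ : ρ' ≤ ρ) : AlmostAll P ρ := by
  obtain ⟨r, hr, hrρ, h⟩ := h
  exact ⟨r, hr, hrρ.trans hρ, h⟩

theorem exists_radius (φ : MvPolynomial (Fin p) QBar) (hφ : MvPolynomial.aeval (0 : Fin p → ℂ) φ ≠ 0) :
    ∃ ρ : ℝ, 0 < ρ ∧ ∀ z : Fin p → ℂ, (∀ l, ‖z l‖ < ρ) → MvPolynomial.aeval z φ ≠ 0 := by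
  have hc : Continuous fun z : Fin p → ℂ => MvPolynomial.aeval z φ := by
    have h1 : (fun z : Fin p → ℂ => MvPolynomial.aeval z φ) = fun z =>
        MvPolynomial.eval z (φ.map (algebraMap QBar ℂ)) := by
      funext z
      rw [MvPolynomial.eval_map, MvPolynomial.aeval_def]
    rw [h1]
    exact MvPolynomial.continuous_eval _
  have h2 : {z : Fin p → ℂ | MvPolynomial.aeval z φ ≠ 0} ∈ nhds (0 : Fin p → ℂ) :=
    (isOpen_ne_fun hc continuous_const).mem_nhds hφ
  obtain ⟨ρ, hρ, hball⟩ := Metric.mem_nhds_iff.1 h2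
  refine ⟨ρ, hρ, fun z hz => hball ?_⟩
  rw [Metric.mem_ball, dist_zero_right]
  exact (pi_norm_lt_iff hρ).2 hz

theorem almost_rational [Finite ι] [Finite ι'] {P : (Fin p → ℂ) → ι → ℂ} {P' : (Fin p → ℂ) → ι' → ℂ} {ρ : ℝ}
    (hρ : 0 < ρ) (hP : GRepresented P ρ) (hR : RationalIn P P' ρ) : AlmostAll P' ρ := by
  classical
  have := Fintype.ofFinite ι
  have := Fintype.ofFinite ι'
  obtain ⟨Φ, φ, hφ0, hΦ⟩ := hR
  obtain ⟨ρ₁, hρ₁, hφ⟩ := exists_radius φ hφ0
  obtain ⟨L, i1, i2, i3, n, Z, hZ, hP⟩ := hP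
  choose l c₀ c hc using hP
  choose f A hf hsys using fun l => (hZ l).ode
  choose W hW hWG using fun l => (hZ l).inv
  have hD : ∀ l, Pool.Agent.Y921.DB.DatL (f l) (A l) (Z l) (W l) := fun l =>
    { reg := hf l, sys := hsys l, inv := fun i j => by
        have h1 := congrFun (congrFun (hW l) i) j
        rw [Matrix.mul_apply, Matrix.one_apply] at h1
        exact h1
      gZ := fun i j => (hZ l).gfun i j, gW := fun i j => hWG l i j }
  let R : Pool.Agent.NH25.DG.Rep P (min ρ ρ₁) Z := ⟨l, c₀, c, fun z hz i => hc i z fun l => (hz l).trans_le (min_le_left _ _)⟩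
  obtain ⟨r, hr, hrr, hall⟩ := R.count (lt_min hρ hρ₁) hD
  refine almost_of_cnt hr (hrr.trans (min_le_left _ _)) ?_
  refine t_CIM t_IMG p ι ι' P P' r Φ φ (fun z hz => ⟨hφ z fun l => (hz l).trans_le (hrr.trans (min_le_right _ _)),
    fun i => ?_⟩) hall
  rw [hΦ z (fun l => (hz l).trans_le (hrr.trans (min_le_left _ _))) i]
  unfold special
  rw [MvPolynomial.aeval_def, MvPolynomial.eval₂_map]
  rfl

theorem RationalIn.mono {P : (Fin p → ℂ) → ι → ℂ} {P' : (Fin p → ℂ) → ι' → ℂ} {ρ ρ' : ℝ} (h : RationalIn P P' ρ)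
    (hρ : ρ' ≤ ρ) : RationalIn P P' ρ' := by
  obtain ⟨Φ, φ, h0, h⟩ := h
  exact ⟨Φ, φ, h0, fun z hz => h z fun l => (hz l).trans_le hρ⟩

theorem curves (X : Fin p → CurveFamily) (hp : 1 ≤ p) : ∃ E : Finset ℂ, ∀ c : Fin p → ℂ,
    (∀ l, IsAlgebraic ℚ (c l) ∧ c l ∉ E) → ∃ ρ' : ℝ, 0 < ρ' ∧ ∀ (q : ℕ) (ρ : ℝ) (σ : Fin p → ℕ)
      (γ : ∀ l, Fin (σ l) → TransportedLoop (X l) (c l) ρ) (w : Fin q → ℂ), 0 < ρ →
      GRepresented (periods X c γ w) (min ρ ρ') := by
  classical
  obtain ⟨E, hE⟩ := curves_rep (fun l => (X l).F) (fun l => (X l).Q) (fun l => (X l).monic) (fun l => (X l).degree_pos)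
    (fun l => (X l).ne_zero) (fun l => (X l).unramified) (fun l => (X l).r) (fun l => (X l).P) (fun l => (X l).k)
  refine ⟨E, fun c hc => ?_⟩
  obtain ⟨K, hK, n, f, A, Z, W, hD, ρ', hρ', hrep⟩ := hE c hc
  refine ⟨ρ', hρ', fun q ρ σ γ w hρ => ?_⟩
  have hnf : NumberField K := { to_charZero := inferInstance, to_finiteDimensional := hK }
  refine ⟨K, inferInstance, hnf, inferInstance, n, Z, fun l => ⟨⟨f l, A l, (hD l).reg, (hD l).sys⟩,
    fun i j => (hD l).gZ i j, ⟨W l, ?_, fun i j => (hD l).gW i j⟩⟩, fun i => ?_⟩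
  · ext1 i j
    have h1 := (hD l).inv i j
    rw [← Matrix.one_apply] at h1
    exact h1
  · rcases i with ⟨l, s, i⟩ | j
    · obtain ⟨cc, hcc⟩ := hrep (min ρ ρ') (lt_min hρ hρ') (min_le_right _ _) l (γ l s).x (γ l s).y
        (Lpp.mono ⟨(γ l s).smooth, (γ l s).continuous, (γ l s).closed_x, (γ l s).closed_y, (γ l s).curve,
          (γ l s).away⟩ (min_le_left _ _)) i
      refine ⟨l, 0, cc, fun z hz => ?_⟩
      rw [zero_add]
      exact hcc (z l) (hz l)
    · refine ⟨⟨0, hp⟩, w j, 0, fun z hz => ?_⟩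
      simp [periods]

end proof

/-- **The theorem.** -/
theorem result :
    -- the number of the tuples
    (∀ (p : ℕ) (m : Fin p → ℕ), (∀ l, 1 ≤ m l) → ∃ c₀ : ℝ, 0 < c₀ ∧ ∀ T : ℕ, 1 ≤ T → (Tuples m T).Finite ∧
      c₀ * (T : ℝ) ^ size m ≤ ((Tuples m T).ncard : ℝ)) ∧
    -- rational functions of functions which are represented by G-functions
    (∀ (p : ℕ) (ι ι' : Type) (_ : Finite ι) (_ : Finite ι') (P : (Fin p → ℂ) → ι → ℂ) (P' : (Fin p → ℂ) → ι' → ℂ)
      (ρ : ℝ), 0 < ρ → GRepresented P ρ → RationalIn P P' ρ → AlmostAll P' ρ) ∧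
    -- rational functions of the periods of families of curves
    (∀ (p : ℕ) (X : Fin p → CurveFamily), 1 ≤ p → ∃ E : Finset ℂ, ∀ c : Fin p → ℂ,
      (∀ l, IsAlgebraic ℚ (c l) ∧ c l ∉ E) → ∀ (q : ℕ) (ρ : ℝ) (σ : Fin p → ℕ)
      (γ : ∀ l, Fin (σ l) → TransportedLoop (X l) (c l) ρ) (w : Fin q → ℂ) (ι' : Type) (_ : Finite ι')
      (P' : (Fin p → ℂ) → ι' → ℂ), 0 < ρ → RationalIn (periods X c γ w) P' ρ → AlmostAll P' ρ) := by
  classical
  refine ⟨?_, ?_, ?_⟩
  · intro p m hm
    have hexp : size m = ∑ l, Pool.Agent.Y916.Sl.Mm (m l) :=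
      Finset.sum_congr rfl fun l _ => (Pool.Agent.Y916.Sl.Mm_eq (m l)).symm
    choose c₁ hc₁ hmany using fun i => Pool.Agent.Y916.Sl.many (m i) (hm i)
    refine ⟨∏ i, c₁ i, Finset.prod_pos fun i _ => hc₁ i,
      fun T hT => ⟨Set.Finite.pi' fun i => Pool.Agent.Y916.Sl.sint_fin (m i) T, ?_⟩⟩
    have h1 : ((Tuples m T).ncard : ℝ) = ∏ i, ({ξ : ℂ | House (m i) T ξ}.ncard : ℝ) := by
      have h2 : Tuples m T = Set.univ.pi fun i => {ξ : ℂ | House (m i) T ξ} := by
        ext β
        simp [Tuples]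
      have hf : ∀ i, {ξ : ℂ | House (m i) T ξ}.Finite := fun i => Pool.Agent.Y916.Sl.sint_fin (m i) T
      have h3 : (Set.univ.pi fun i => {ξ : ℂ | House (m i) T ξ}) =
          ((Fintype.piFinset fun i => (hf i).toFinset : Finset (Fin p → ℂ)) : Set (Fin p → ℂ)) := by
        ext β
        simp
      rw [h2, h3, Set.ncard_coe_finset, Fintype.card_piFinset]
      push_cast
      refine Finset.prod_congr rfl fun i _ => ?_
      rw [Set.ncard_eq_toFinset_card _ (hf i)]
    rw [h1, hexp, ← Finset.prod_pow_eq_pow_sum, ← Finset.prod_mul_distrib]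
    refine Finset.prod_le_prod (fun i _ => ?_) fun i _ => hmany i T hT
    have := hc₁ i
    positivity
  · intro p ι ι' _ _ P P' ρ hρ hP hR
    exact almost_rational hρ hP hR
  · intro p X hp
    obtain ⟨E, hE⟩ := curves X hp
    refine ⟨E, fun c hc q ρ σ γ w ι' _ P' hρ hR => ?_⟩
    obtain ⟨ρ', hρ', hrep⟩ := hE c hc
    exact (almost_rational (lt_min hρ hρ') (hrep q ρ σ γ w hρ) (hR.mono (min_le_left _ _))).mono (min_le_left _ _)

end Pool.Agent.Results.MP_290158_ag.AllFamiliesOfCurves
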