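import Pool.Agent.NH26.PM.Main

namespace Pool.Agent.Results.MP_290158_ag.LinearRelations

open Pool.Agent.NH26.PM MvPolynomial

/-- Let `Y ⟶ S` be a family over an open subset `S` of the multiplicative group, with a model over
the number field `K`, with multivalued period matrix of size `m ≥ 1` and graph `G`, and let
`X = Y ×_S S' ⟶ S`, where `S' ⟶ S` is the double cover `x ^ 2 = s`. At every algebraic point
`s` of `S` whose square roots lie in `κ(s) = K(s)`, for example at every square of `K`, the
closure `Z_s` of every value of the period matrix satisfies a relation of degree one over `κ(s)`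
that does not hold on the fibre at `s` of the closure of the graph. -/
theorem result {m : Type} [Fintype m] [DecidableEq m] [Nonempty m]
    (K : Subfield ℂ) [FiniteDimensional ℚ K]
    (G : Set (ℂ × Matrix m m ℂ)) (hG : ∀ p ∈ G, p.1 ≠ 0 ∧ p.2.det ≠ 0)
    (s : ℂ) (hs : IsAlgebraic ℚ s) (PY : Matrix m m ℂ) (h : (s, PY) ∈ G)
    (e : Fin 2 ≃ {x : ℂ // x ^ 2 = s})
    (he : (e 0 : ℂ) ∈ Subfield.closure (insert s (K : Set ℂ))) (δ : ℕ) (hδ : 1 ≤ δ) :
    ∃ f : MvPolynomial ((m × Fin 2) × (m × Fin 2)) (Subfield.closure (insert s (K : Set ℂ))),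
      f.totalDegree ≤ δ ∧
      (∀ M ∈ closureGL algNum {perX PY e},
        aeval (fun ij : (m × Fin 2) × (m × Fin 2) => M ij.1 ij.2) f = 0) ∧
      ∃ M ∈ fibreAt (closureRel algNum (graphX G)) s,
        aeval (fun ij : (m × Fin 2) × (m × Fin 2) => M ij.1 ij.2) f ≠ 0 := by
  have hκ : Subfield.closure (insert s (K : Set ℂ)) ≤ algNum := by
    rw [Subfield.closure_le]
    intro z hz
    rcases Set.mem_insert_iff.mp hz with rfl | hz
    · exact mem_algNum.mpr hs
    · apply mem_algNum.mpr
      have : IsAlgebraic ℚ (⟨z, hz⟩ : K) := Algebra.IsAlgebraic.isAlgebraic _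
      exact this.algebraMap (A := ℂ)
  obtain ⟨f, hf, h1, h2⟩ := exists_relation hG h e (Subfield.closure (insert s (K : Set ℂ)))
    (fun z hz => mem_algNum.mp (hκ hz)) he
  exact ⟨f, hf.trans hδ, h1, h2⟩

end Pool.Agent.Results.MP_290158_ag.LinearRelations
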