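import Pool.Agent.NH25.UF.All
import Pool.Agent.NH25.CV.All

/-!
# Windows of algebraic points: relations over all number fields of bounded degree at once

Let `X_l → U_l`, `1 ≤ l ≤ p`, be families of smooth projective varieties over curves over a number field, `z_l` a coordinate
at a point of the smooth compactification of `U_l` at which the local monodromy is unipotent (for example trivial), and
`S = U_1 × … × U_p`. Near this point the multivalued period matrix of `X_l` is `C_l exp(t_l N_l) H_l(z_l)`, where `t_l` is a value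
of `log z_l`, `C_l` a constant matrix and `exp(t N_l) H_l` a fundamental matrix of the Picard-Fuchs system over a number
field, normalised by `H_l(0) = 1`; the entries of `H_l` and `H_l⁻¹` are G-functions (André). Hence all branches of all the
periods, together with any constants, are functions as in `LogRepresented`: polynomials in the logarithm `t_l` whose
coefficients are linear combinations with complex coefficients of `1` and the entries of `H_l(z_l)`, for some `l`. The
definition makes no reference to geometry.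

The field of definition `κ(s)` of a point depends on the field `K₀` over which the family is considered, and every
relation over `ℚ̄` has coefficients in `κ(s)` for a suitable `K₀`. In `WindowsNearDegenerations` the field `K₀` is given and the
exceptional set depends on it. Here we treat all number fields `K₀` of degree at most `D` at once, so `K₀` may depend on the
point and on the relation. In this setting the irreducible components of the fibre `B_{P, s}` of the Zariski closure over `ℚ̄`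
of the graph of `P` matter: for `P(z) = √(1 + z)` the polynomial `X - √(1 + s)` vanishes at `P(s)` but not on `B_{P, s}`.

**Theorem.** Let `P` be as in `LogRepresented`. For all `δ`, `D`, `m`, `A` there are `M` and `E` such that for all tuples
`ξ = (ξ_1, …, ξ_p)` of algebraic numbers of degree at most `m` and of height at most `|ξ_l| ^ A`, and all `H_l` with
`(H_l + 2) ^ E ≤ |ξ_l|`, the following holds at the points `s = (1 / (ξ_1 + g_1), …, 1 / (ξ_p + g_p))`, `g_l ∈ ℤ`, `|g_l| ≤ H_l`,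
with at most `M ∑_l ∏_{l' ≠ l} (2 H_{l'} + 1)` exceptions (at most `M` exceptions for `p = 1`): for all number fields `K₀` of degree at
most `D`, every polynomial `F` over `κ(s) = K₀(s)` of degree at most `δ` which vanishes at a branch `P(s)` vanishes on an
irreducible component of `B_{P, s}`. If moreover the algebraic functions in the field which is generated by the functions
`P` over `ℚ̄(z)` are rational (`NoAlgebraicFunctions`), then `F` vanishes on `B_{P, s}`, and is the value at `s` of a polynomial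
over `ℚ̄[z_1, …, z_p]` of degree at most `δ` which vanishes on the graph of `P`; so there is no relation of degree at most `δ`
over `κ(s)`, for any of the fields `K₀`. For the periods of a family the condition `NoAlgebraicFunctions` is satisfied if the
monodromy group is Zariski connected: an algebraic function in the field has a finite orbit under the monodromy group,
hence it is invariant under the identity component of its Zariski closure.

**All families of curves.** Let `F_l(z, x, y)` be polynomials over `ℚ̄`, monic in `y`, and `Q_l(z, x) ≠ 0` polynomials over `ℚ̄` such that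
`F_l(z, x, Y)` has no multiple root when `Q_l(z, x) ≠ 0`: families of curves `F_l(z, x, y) = 0, Q_l(z, x) ≠ 0` (`CurveFamily`); every
family of smooth curves over a curve is of this form over an open subset of the base. There is a finite set `E` such that near
every centre `c` with algebraic coordinates outside `E` the same conclusion holds for the periods
`∮ P(z, x, y) dx / Q(z, x) ^ k` over closed paths which are transported to the neighbouring fibres (`TransportedLoop`; every closed
path on the curve `U_c` which avoids the zeros of `Q(c, x)` and for which `x(t)` is continuously differentiable has a unique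
transport for small `|z - c|`), together with arbitrary constants. The functions are written in the coordinate `z - c`. Here
nothing about G-functions is assumed: the theorem of André for `H^1` of families of curves is proved
(`Pool/Agent/NH25/CV`, with many coauthors).

Proof. For a fixed number field `L₀` the statement of degree `D δ` over `L₀(s)` holds outside a small set
(`Pool/Agent/NH25/DL`: linear independence over `ℚ` of products of values of G-functions and logarithms at translates of an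
algebraic number). Let `F` be a polynomial over `K₀(s)` with `F(P(s)) = 0`. The product `N` of its at most `D` conjugates over
`L₀(s)` is a relation over `L₀(s)`, hence the value at `s` of a functional relation; so it vanishes on every component of
`B_{P, s}`, and the conjugates over `L₀(s)` permute the components. If the field of `B_P` is regular over `ℚ̄(z)`, the functional
relations generate a prime ideal over the algebraic closure of `ℚ̄(z)`. By the theorem of zeros over this field, with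
unknowns the coefficients of the factors, there is a polynomial `Δ ≠ 0` such that for `Δ(s) ≠ 0` a product of at most `D`
polynomials of degree at most `δ` is the value at `s` of a functional relation of degree at most `D δ` only if one of the
factors is the value of a functional relation of degree at most `δ` (`Pool/Agent/NH25/UF`). Thus a conjugate of `F` over `L₀(s)`
is such a value; if `L₀` is large enough this property is invariant under conjugation.
-/

set_option autoImplicit false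

open PowerSeries Filter

namespace Pool.Agent.Results.MP_290158_ag.WindowsFamiliesOfCurves

section systems

variable {L : Type} [Field L]

/-- The arithmetic conditions in the definition of a G-function over the number field `L`: geometric growth of all
conjugates of the coefficients and of their common denominators. -/
def GFunction (g : PowerSeries L) : Prop := ∃ A : ℝ, (∀ (φ : L →+* ℂ) (m : ℕ), ‖φ (coeff m g)‖ ≤ A ^ (m + 1)) ∧
  ∀ m, ∃ d : ℕ, 0 < d ∧ (d : ℝ) ≤ A ^ (m + 1) ∧ ∀ j ≤ m, IsIntegral ℤ ((d : L) * coeff j g)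

/-- The matrix `Y = z ^ N H(z)` with `N` nilpotent and `H(0) = 1` is a fundamental matrix (rows: solutions) of a system
`f z Y' = Y A` over `L(z)` with `f(0) ≠ 0`, and the entries of `H` and of the inverse matrix are G-functions. -/
structure UnipotentMatrix {n : ℕ} (N : Matrix (Fin n) (Fin n) ℤ) (H : Matrix (Fin n) (Fin n) (PowerSeries L)) : Prop where
  /-- `N` is nilpotent -/
  nilpotent : N ^ n = 0
  /-- the normalisation -/
  one : ∀ i j, coeff 0 (H i j) = if i = j then 1 else 0
  /-- the system: `f (z H' + N H) = H A` with `f(0) ≠ 0` -/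
  ode : ∃ (f : Polynomial L) (A : Matrix (Fin n) (Fin n) (Polynomial L)), f.coeff 0 ≠ 0 ∧
    ∀ i j, (f : PowerSeries L) * (X * PowerSeries.derivative L (H i j) + ∑ k, C (N i k : L) * H k j) =
      ∑ k, H i k * (A k j : PowerSeries L)
  /-- the entries are G-functions -/
  gfun : ∀ i j, GFunction (H i j)
  /-- the entries of the inverse matrix are G-functions -/
  inv : ∃ W : Matrix (Fin n) (Fin n) (PowerSeries L), H * W = 1 ∧ ∀ i j, GFunction (W i j)

/-- the value of a power series -/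
noncomputable def value [Algebra L ℂ] (g : PowerSeries L) (z : ℂ) : ℂ := ∑' m : ℕ, algebraMap L ℂ (coeff m g) * z ^ m

end systems

/-- `P z t` are the values of multivalued functions at the point `z` of the punctured polydisc of radius `ρ`, for the values
`t` of the logarithms of the coordinates of `z`. There are a number field `L` in `ℂ` and matrices `H_1, …, H_p` over `L` as in
`UnipotentMatrix` such that every function `P i` is for some `l` a polynomial in the logarithm `t_l` whose coefficients are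
linear combinations, with complex coefficients, of `1` and the entries of `H_l(z_l)`. -/
def LogRepresented {p : ℕ} {ι : Type} (P : (Fin p → ℂ) → (Fin p → ℂ) → ι → ℂ) (ρ : ℝ) : Prop :=
  ∃ (L : Type) (_ : Field L) (_ : NumberField L) (_ : Algebra L ℂ) (n : Fin p → ℕ)
    (N : ∀ l, Matrix (Fin (n l)) (Fin (n l)) ℤ) (H : ∀ l, Matrix (Fin (n l)) (Fin (n l)) (PowerSeries L)) (e : ℕ),
    (∀ l, UnipotentMatrix (N l) (H l)) ∧
    ∀ i, ∃ (l : Fin p) (c₀ : Fin (e + 1) → ℂ) (c : Fin (e + 1) → Matrix (Fin (n l)) (Fin (n l)) ℂ),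
      ∀ z t : Fin p → ℂ, (∀ l, ‖z l‖ < ρ) → (∀ l, Complex.exp (t l) = z l) →
        P z t i = ∑ j, (c₀ j + ∑ a, ∑ b, c j a b * value (H l a b) (z l)) * t l ^ (j : ℕ)

section statement

/-- The field of all algebraic numbers. -/
noncomputable abbrev QBar : IntermediateField ℚ ℂ := algebraicClosure ℚ ℂ

variable {p : ℕ} {ι : Type}

/-- a polynomial over `ℚ̄[z_1, …, z_p]` at a point `z` -/
noncomputable def special (G : MvPolynomial ι (MvPolynomial (Fin p) QBar)) (z : Fin p → ℂ) : MvPolynomial ι ℂ :=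
  G.map (MvPolynomial.aeval z : MvPolynomial (Fin p) QBar →ₐ[QBar] ℂ).toRingHom

/-- `G(z, P(z)) = 0` for all `z` in the punctured polydisc of radius `r` and all branches of `P` at `z` -/
def Holds (P : (Fin p → ℂ) → (Fin p → ℂ) → ι → ℂ) (r : ℝ) (G : MvPolynomial ι (MvPolynomial (Fin p) QBar)) : Prop :=
  ∀ z t : Fin p → ℂ, (∀ l, ‖z l‖ < r) → (∀ l, Complex.exp (t l) = z l) → MvPolynomial.aeval (P z t) (special G z) = 0

/-- The fibre over `s` of the Zariski closure over the algebraic numbers of the graph of the multivalued function `P` over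
the punctured polydisc of radius `r`. -/
def closureFibre (P : (Fin p → ℂ) → (Fin p → ℂ) → ι → ℂ) (r : ℝ) (s : Fin p → ℂ) : Set (ι → ℂ) :=
  {y | ∀ G : MvPolynomial ι (MvPolynomial (Fin p) QBar), Holds P r G → MvPolynomial.aeval y (special G s) = 0}

/-- The residue field `κ(s) = K₀(s_1, …, s_p)`. -/
noncomputable def residueField (K₀ : IntermediateField ℚ ℂ) (s : Fin p → ℂ) : IntermediateField ℚ ℂ :=
  K₀ ⊔ IntermediateField.adjoin ℚ (Set.range s)

end statement

/-- `G(z, P(z)) = 0` for all `z` near `0` and all branches of `P` at `z` -/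
def Relation {p : ℕ} {ι : Type} (P : (Fin p → ℂ) → (Fin p → ℂ) → ι → ℂ) (G : MvPolynomial ι (MvPolynomial (Fin p) QBar)) :
    Prop := ∃ r : ℝ, 0 < r ∧ Holds P r G

/-- the polynomial `∑ q_j G₁ ^ j G₂ ^ (n - j)`, with `n` the degree of `q`: the numerator of `q(G₁ / G₂)` -/
noncomputable def numerator {p : ℕ} {ι : Type} (q : Polynomial (MvPolynomial (Fin p) QBar))
    (G₁ G₂ : MvPolynomial ι (MvPolynomial (Fin p) QBar)) : MvPolynomial ι (MvPolynomial (Fin p) QBar) :=
  ∑ j ∈ Finset.range (q.natDegree + 1), MvPolynomial.C (q.coeff j) * G₁ ^ j * G₂ ^ (q.natDegree - j)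

/-- the polynomial `b G₁ - a G₂` -/
noncomputable def difference {p : ℕ} {ι : Type} (a b : MvPolynomial (Fin p) QBar)
    (G₁ G₂ : MvPolynomial ι (MvPolynomial (Fin p) QBar)) : MvPolynomial ι (MvPolynomial (Fin p) QBar) :=
  MvPolynomial.C b * G₁ - MvPolynomial.C a * G₂

/-- Every element `f = G₁(z, P(z)) / G₂(z, P(z))` of the field which is generated by the functions `P` over the field of
rational functions `ℚ̄(z)`, and which is algebraic over `ℚ̄(z)`, that is, `q(f) = 0` for a nonzero polynomial `q` over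
`ℚ̄[z]`, is an element `a(z) / b(z)` of `ℚ̄(z)`. -/
def NoAlgebraicFunctions {p : ℕ} {ι : Type} (P : (Fin p → ℂ) → (Fin p → ℂ) → ι → ℂ) : Prop :=
  ∀ G₁ G₂ : MvPolynomial ι (MvPolynomial (Fin p) QBar), ¬ Relation P G₂ →
    ∀ q : Polynomial (MvPolynomial (Fin p) QBar), q ≠ 0 → Relation P (numerator q G₁ G₂) →
    ∃ a b : MvPolynomial (Fin p) QBar, b ≠ 0 ∧ Relation P (difference a b G₁ G₂)

/-- The ideal of the fibre over `s`, a point with algebraic coordinates: it is generated by the values at `s` of the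
polynomials over `ℚ̄[z]` which vanish on the graph of the multivalued function `P` over the punctured polydisc of radius
`r`. Its set of zeros is `closureFibre P r s`. -/
noncomputable def fibreIdeal {p : ℕ} {ι : Type} (P : (Fin p → ℂ) → (Fin p → ℂ) → ι → ℂ) (r : ℝ) (s : Fin p → ℂ) :
    Ideal (MvPolynomial ι QBar) :=
  Ideal.span {g | ∃ G : MvPolynomial ι (MvPolynomial (Fin p) QBar), Holds P r G ∧
    special G s = g.map (algebraMap QBar ℂ)}

/-- `Y` is an irreducible component, for the Zariski topology over `ℚ̄`, of the fibre over `s` of the closure of the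
graph. -/
def IsComponent {p : ℕ} {ι : Type} (P : (Fin p → ℂ) → (Fin p → ℂ) → ι → ℂ) (r : ℝ) (s : Fin p → ℂ) (Y : Set (ι → ℂ)) :
    Prop := ∃ 𝔮 ∈ (fibreIdeal P r s).minimalPrimes, Y = {y | ∀ g ∈ 𝔮, MvPolynomial.aeval y g = 0}

/-- `F` vanishes on `Y` -/
def VanishesOn {ι : Type} {K : IntermediateField ℚ ℂ} (F : MvPolynomial ι K) (Y : Set (ι → ℂ)) : Prop :=
  ∀ y ∈ Y, MvPolynomial.aeval y F = 0

/-- `F` is the value at `s` of a relation over `ℚ̄[z]`, of total degree at most `δ`, which holds on the graph of `P`. -/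
def IsSpecialisation {p : ℕ} {ι : Type} (P : (Fin p → ℂ) → (Fin p → ℂ) → ι → ℂ) (r : ℝ) (δ : ℕ) (s : Fin p → ℂ)
    {K : IntermediateField ℚ ℂ} (F : MvPolynomial ι K) : Prop :=
  ∃ G : MvPolynomial ι (MvPolynomial (Fin p) QBar), G.totalDegree ≤ δ ∧ Holds P r G ∧
    special G s = F.map (algebraMap K ℂ)

/-- The statement of degree `δ` over `K₀(s)` at `s`, for all branches `P(s)`: every polynomial `F` of total degree at most `δ`
with coefficients in `K₀(s)` which vanishes at `P(s)` vanishes on an irreducible component of the fibre over `s` of the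
closure of the graph of `P`; and if `P` satisfies `NoAlgebraicFunctions`, then `F` vanishes on the whole fibre, and is the
value at `s` of a relation over `ℚ̄[z]`, of total degree at most `δ`, which holds on the graph of `P`. -/
def StatementOver {p : ℕ} {ι : Type} (P : (Fin p → ℂ) → (Fin p → ℂ) → ι → ℂ) (r : ℝ) (K₀ : IntermediateField ℚ ℂ) (δ : ℕ)
    (s : Fin p → ℂ) : Prop :=
  ∀ t : Fin p → ℂ, (∀ l, Complex.exp (t l) = s l) →
  ∀ F : MvPolynomial ι (residueField K₀ s), F.totalDegree ≤ δ → MvPolynomial.aeval (P s t) F = 0 →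
    (∃ Y : Set (ι → ℂ), IsComponent P r s Y ∧ VanishesOn F Y) ∧
    (NoAlgebraicFunctions P → VanishesOn F (closureFibre P r s) ∧ IsSpecialisation P r δ s F)

/-- the statement of degree `δ` over `K₀(s)` for all number fields `K₀` of degree at most `D` -/
def StatementForAll {p : ℕ} {ι : Type} (P : (Fin p → ℂ) → (Fin p → ℂ) → ι → ℂ) (r : ℝ) (D δ : ℕ) (s : Fin p → ℂ) : Prop :=
  ∀ K₀ : IntermediateField ℚ ℂ, FiniteDimensional ℚ K₀ → Module.finrank ℚ K₀ ≤ D → StatementOver P r K₀ δ s

/-- `ξ` is a root of a nonzero integral polynomial of degree at most `m` with coefficients of size at most `|ξ| ^ A` -/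
def Height (m A : ℕ) (ξ : ℂ) : Prop :=
  ∃ f : Polynomial ℤ, f ≠ 0 ∧ f.natDegree ≤ m ∧ (∀ j, |(f.coeff j : ℝ)| ≤ ‖ξ‖ ^ A) ∧ Polynomial.aeval ξ f = 0

/-- The translations `g` in the window with the half side lengths `H_l` for which the point
`s = (1 / (ξ_1 + g_1), …, 1 / (ξ_p + g_p))` is not in the polydisc of radius `r` or the statement of degree `δ` at `s` fails over
`K₀(s)` for some number field `K₀` of degree at most `D`. -/
def Exceptional {p : ℕ} {ι : Type} (P : (Fin p → ℂ) → (Fin p → ℂ) → ι → ℂ) (r : ℝ) (D δ : ℕ)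
    (ξ : Fin p → ℂ) (H : Fin p → ℕ) : Set (Fin p → ℤ) :=
  {g | (∀ l, |g l| ≤ (H l : ℤ)) ∧ ¬ ((∀ l, ‖1 / (ξ l + (g l : ℂ))‖ < r) ∧
    StatementForAll P r D δ fun l => 1 / (ξ l + (g l : ℂ)))}

/-- The conclusion of the theorem, for a family of multivalued functions `P` on the punctured polydisc of radius `ρ`. -/
def Windows {p : ℕ} {ι : Type} (P : (Fin p → ℂ) → (Fin p → ℂ) → ι → ℂ) (ρ : ℝ) : Prop :=
  ∃ r : ℝ, 0 < r ∧ r ≤ ρ ∧ ∀ δ D m A : ℕ, ∃ M E : ℕ, ∀ (ξ : Fin p → ℂ) (H : Fin p → ℕ), (∀ l, Height m A (ξ l)) →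
    (∀ l, ((H l : ℝ) + 2) ^ E ≤ ‖ξ l‖) →
    (Exceptional P r D δ ξ H).ncard ≤ M * ∑ l, ∏ l' ∈ Finset.univ.erase l, (2 * H l' + 1)

section curves

/-- The polynomial `F(z, x, Y)` in `Y`, for `F` in `ℚ̄[z][x][Y]`. -/
noncomputable def fibre (F : Polynomial (Polynomial (Polynomial QBar))) (z x : ℂ) : Polynomial ℂ :=
  F.map ((Polynomial.evalRingHom x).comp (Polynomial.mapRingHom (Polynomial.eval₂RingHom (algebraMap QBar ℂ) z)))

/-- The value `Q(z, x)`, for `Q` in `ℚ̄[z][x]`. -/
noncomputable def point (Q : Polynomial (Polynomial QBar)) (z x : ℂ) : ℂ :=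
  (Q.map (Polynomial.eval₂RingHom (algebraMap QBar ℂ) z)).eval x

/-- A family of curves `U_z : F(z, x, y) = 0, Q(z, x) ≠ 0` over the algebraic numbers, unramified over the `x`-line without the
zeros of `Q(z, x)`, with `r` forms `P_i(z, x, y) dx / Q(z, x) ^ k_i`. -/
structure CurveFamily where
  F : Polynomial (Polynomial (Polynomial QBar))
  Q : Polynomial (Polynomial QBar)
  /-- `F` is monic in `y` -/
  monic : F.Monic
  degree_pos : 0 < F.natDegree
  ne_zero : Q ≠ 0
  /-- if `Q(z, x) ≠ 0` then `F(z, x, Y)` has no multiple root -/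
  unramified : ∀ z x : ℂ, point Q z x ≠ 0 → (fibre F z x).Separable
  /-- the number of forms -/
  r : ℕ
  P : Fin r → Polynomial (Polynomial (Polynomial QBar))
  k : Fin r → ℕ

/-- A closed path on the curve `U_c` and its transport `(x(t), y(z, t))` to the curves `U_z`, `|z - c| < ρ`. -/
structure TransportedLoop (X : CurveFamily) (c : ℂ) (ρ : ℝ) where
  x : ℝ → ℂ
  y : ℂ → ℝ → ℂ
  smooth : ContDiff ℝ 1 x
  continuous : ContinuousOn (fun v : ℂ × ℝ => y v.1 v.2) (Metric.ball c ρ ×ˢ Set.Icc (0 : ℝ) 1)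
  closed_x : x 0 = x 1
  closed_y : ∀ z ∈ Metric.ball c ρ, y z 0 = y z 1
  curve : ∀ z ∈ Metric.ball c ρ, ∀ t ∈ Set.Icc (0 : ℝ) 1, (fibre X.F z (x t)).eval (y z t) = 0
  away : ∀ z ∈ Metric.ball c ρ, ∀ t ∈ Set.Icc (0 : ℝ) 1, point X.Q z (x t) ≠ 0

/-- The period of the `i`-th form over the transported loop on `U_z`. -/
noncomputable def period {X : CurveFamily} {c : ℂ} {ρ : ℝ} (γ : TransportedLoop X c ρ) (i : Fin X.r) (z : ℂ) : ℂ :=
  ∫ t in (0 : ℝ)..1, (fibre (X.P i) z (γ.x t)).eval (γ.y z t) / point X.Q z (γ.x t) ^ X.k i * deriv γ.x t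

/-- The periods of `p` families of curves over `σ l` transported loops, as (single-valued) functions of `z - c`, and the constants
`w`. -/
noncomputable def periods {p q : ℕ} (X : Fin p → CurveFamily) (c : Fin p → ℂ) {ρ : ℝ} {σ : Fin p → ℕ}
    (γ : ∀ l, Fin (σ l) → TransportedLoop (X l) (c l) ρ) (w : Fin q → ℂ) (z _t : Fin p → ℂ) :
    (Σ l, Fin (σ l) × Fin (X l).r) ⊕ Fin q → ℂ :=
  Sum.elim (fun v => period (γ v.1 v.2.1) v.2.2 (c v.1 + z v.1)) w

end curves

section proof

open Pool.Agent.NH25.DL Pool.Agent.Y921.DB Pool.Agent.Y916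

variable {p : ℕ} {ι : Type}

/-- the data of a representation -/
theorem rep_of {P : (Fin p → ℂ) → (Fin p → ℂ) → ι → ℂ} {ρ : ℝ} (h : LogRepresented P ρ) :
    ∃ (P' : (Fin p → ℂ) → (Fin p → ℂ) → ι → ℂ) (L : Type) (_ : Field L) (_ : NumberField L) (_ : Algebra L ℂ)
      (n : Fin p → ℕ) (N : ∀ l, Matrix (Fin (n l)) (Fin (n l)) ℤ)
      (H : ∀ l, Matrix (Fin (n l)) (Fin (n l)) (PowerSeries L)), (∀ l, LFam (N l) (H l)) ∧ Nonempty (RepL P' ρ H) ∧
      ∀ z t : Fin p → ℂ, (∀ l, ‖z l‖ < ρ) → (∀ l, Complex.exp (t l) = z l) → P z t = P' z (-t) := by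
  obtain ⟨L, i1, i2, i3, n, N, H, e, hH, hP⟩ := h
  choose co c₀ c hc using hP
  refine ⟨fun z t i => ∑ j : Fin (e + 1), ((-1) ^ (j : ℕ) * c₀ i j + ∑ a, ∑ b, ((-1) ^ (j : ℕ) * c i j a b) *
    value (H (co i) a b) (z (co i))) * t (co i) ^ (j : ℕ), L, i1, i2, i3, n, N, H, fun l => ?_, ⟨⟨e, co,
      fun i j => (-1) ^ (j : ℕ) * c₀ i j, fun i j => Matrix.of fun a b => (-1) ^ (j : ℕ) * c i j a b,
      fun z hz t i => rfl⟩⟩, fun z t hz ht => ?_⟩
  · obtain ⟨f, A, hf, hode⟩ := (hH l).ode
    obtain ⟨W, hW, hWG⟩ := (hH l).inv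
    exact ⟨(hH l).nilpotent, (hH l).one, ⟨f, fun i j => A i j, hf, hode⟩, fun i j => (hH l).gfun i j,
      ⟨W, hW, fun i j => hWG i j⟩⟩
  · funext i
    rw [hc i z t hz ht]
    refine Finset.sum_congr rfl fun j _ => ?_
    have h3 : (-t) (co i) ^ (j : ℕ) = (-1) ^ (j : ℕ) * t (co i) ^ (j : ℕ) := by rw [Pi.neg_apply, neg_pow]
    have h1 : ((-1 : ℂ) ^ (j : ℕ)) * (-1) ^ (j : ℕ) = 1 := by
      rw [← mul_pow]
      simp
    have h2 : (-1) ^ (j : ℕ) * c₀ i j + ∑ a, ∑ b, ((-1) ^ (j : ℕ) * c i j a b) * value (H (co i) a b) (z (co i)) =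
        (-1) ^ (j : ℕ) * (c₀ i j + ∑ a, ∑ b, c i j a b * value (H (co i) a b) (z (co i))) := by
      rw [mul_add, Finset.mul_sum]
      congr 1
      refine Finset.sum_congr rfl fun a _ => ?_
      rw [Finset.mul_sum]
      exact Finset.sum_congr rfl fun b _ => by ring
    rw [h2, h3]
    linear_combination (-(c₀ i j + ∑ a, ∑ b, c i j a b * value (H (co i) a b) (z (co i)))) * t (co i) ^ (j : ℕ) * h1

theorem relation_iff {P P' : (Fin p → ℂ) → (Fin p → ℂ) → ι → ℂ} {ρ : ℝ} {L : Type} [Field L]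
    [NumberField L] [Algebra L ℂ] {n : Fin p → ℕ} {H : ∀ l, Matrix (Fin (n l)) (Fin (n l)) (PowerSeries L)}
    (R : RepL P' ρ H) {r : ℝ} (hr : 0 < r) (hrρ : r ≤ ρ) (hp : Pool.Agent.NH25.UF.An P' r)
    (hP : ∀ z t : Fin p → ℂ, (∀ l, ‖z l‖ < ρ) → (∀ l, Complex.exp (t l) = z l) → P z t = P' z (-t))
    (G : MvPolynomial ι (MvPolynomial (Fin p) QBar)) : Relation P G ↔ G ∈ Pool.Agent.NH25.UF.relI P' r := by
  rw [Pool.Agent.NH25.UF.rel_iff R hr hrρ hp G]
  constructor
  · rintro ⟨r', hr', h⟩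
    refine ⟨min r' ρ, lt_min hr' (hr.trans_le hrρ), fun z t hz ht => ?_⟩
    have h1 := h z t (fun l => (hz l).trans_le (min_le_left _ _)) ht
    unfold special at h1
    rw [MvPolynomial.aeval_def, MvPolynomial.eval₂_map, hP z t (fun l => (hz l).trans_le (min_le_right _ _)) ht] at h1
    exact h1
  · rintro ⟨r', hr', h⟩
    refine ⟨min r' ρ, lt_min hr' (hr.trans_le hrρ), fun z t hz ht => ?_⟩
    unfold special
    rw [MvPolynomial.aeval_def, MvPolynomial.eval₂_map, hP z t (fun l => (hz l).trans_le (min_le_right _ _)) ht]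
    exact h z t (fun l => (hz l).trans_le (min_le_left _ _)) ht

theorem noAlg_of {P P' : (Fin p → ℂ) → (Fin p → ℂ) → ι → ℂ} {ρ : ℝ} {L : Type} [Field L]
    [NumberField L] [Algebra L ℂ] {n : Fin p → ℕ} {H : ∀ l, Matrix (Fin (n l)) (Fin (n l)) (PowerSeries L)}
    (R : RepL P' ρ H) {r : ℝ} (hr : 0 < r) (hrρ : r ≤ ρ) (hp : Pool.Agent.NH25.UF.An P' r)
    (hP : ∀ z t : Fin p → ℂ, (∀ l, ‖z l‖ < ρ) → (∀ l, Complex.exp (t l) = z l) → P z t = P' z (-t))
    (hH : NoAlgebraicFunctions P) [Fintype ι] : Pool.Agent.NH25.UF.NoAlg (Pool.Agent.NH25.UF.relI P' r) := by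
  intro G₁ G₂ h2 q hq h
  rw [← relation_iff R hr hrρ hp hP] at h2 h
  obtain ⟨a, b, hb, hab⟩ := hH G₁ G₂ h2 q hq h
  exact ⟨a, b, hb, (relation_iff R hr hrρ hp hP _).1 hab⟩

theorem holds_iff {P P' : (Fin p → ℂ) → (Fin p → ℂ) → ι → ℂ} {ρ : ℝ} {L : Type} [Field L]
    [NumberField L] [Algebra L ℂ] {n : Fin p → ℕ} {H : ∀ l, Matrix (Fin (n l)) (Fin (n l)) (PowerSeries L)}
    (R : RepL P' ρ H) {r : ℝ} (hr : 0 < r) (hrρ : r ≤ ρ) (hp : Pool.Agent.NH25.UF.An P' r)
    (hP : ∀ z t : Fin p → ℂ, (∀ l, ‖z l‖ < ρ) → (∀ l, Complex.exp (t l) = z l) → P z t = P' z (-t))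
    (G : MvPolynomial ι (MvPolynomial (Fin p) QBar)) : Holds P r G ↔ G ∈ Pool.Agent.NH25.UF.relI P' r := by
  constructor
  · intro h
    exact (relation_iff R hr hrρ hp hP G).1 ⟨r, hr, h⟩
  · intro h z t hz ht
    unfold special
    rw [MvPolynomial.aeval_def, MvPolynomial.eval₂_map, hP z t (fun l => (hz l).trans_le hrρ) ht]
    exact Pool.Agent.NH25.UF.mem_relI.1 h z hz (-t)

theorem fibreIdeal_eq {P P' : (Fin p → ℂ) → (Fin p → ℂ) → ι → ℂ} {ρ : ℝ} {L : Type} [Field L]
    [NumberField L] [Algebra L ℂ] {n : Fin p → ℕ} {H : ∀ l, Matrix (Fin (n l)) (Fin (n l)) (PowerSeries L)}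
    (R : RepL P' ρ H) {r : ℝ} (hr : 0 < r) (hrρ : r ≤ ρ) (hp : Pool.Agent.NH25.UF.An P' r)
    (hP : ∀ z t : Fin p → ℂ, (∀ l, ‖z l‖ < ρ) → (∀ l, Complex.exp (t l) = z l) → P z t = P' z (-t))
    (s : Fin p → QBar) : fibreIdeal P r (fun l => (s l : ℂ)) =
      (Pool.Agent.NH25.UF.relI P' r).map (MvPolynomial.map (MvPolynomial.eval s)) := by
  unfold fibreIdeal
  show _ = Ideal.span _
  congr 1
  ext g
  have h1 : ∀ G : MvPolynomial ι (MvPolynomial (Fin p) QBar), special G (fun l => (s l : ℂ)) =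
      (G.map (MvPolynomial.eval s)).map (algebraMap QBar ℂ) := fun G =>
    (Pool.Agent.NH25.UF.map_comp_coe QBar s G).symm
  constructor
  · rintro ⟨G, hG1, hG2⟩
    refine ⟨G, (holds_iff R hr hrρ hp hP G).1 hG1, ?_⟩
    rw [h1] at hG2
    exact MvPolynomial.map_injective _ (algebraMap QBar ℂ).injective hG2
  · rintro ⟨G, hG1, rfl⟩
    exact ⟨G, (holds_iff R hr hrρ hp hP G).2 hG1, h1 G⟩

theorem statement_of [Fintype ι] {P P' : (Fin p → ℂ) → (Fin p → ℂ) → ι → ℂ} {ρ : ℝ} {L : Type} [Field L]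
    [NumberField L] [Algebra L ℂ] {n : Fin p → ℕ} {H : ∀ l, Matrix (Fin (n l)) (Fin (n l)) (PowerSeries L)}
    (R : RepL P' ρ H) {r : ℝ} (hr : 0 < r) (hrρ : r ≤ ρ) (hp : Pool.Agent.NH25.UF.An P' r)
    (hP : ∀ z t : Fin p → ℂ, (∀ l, ‖z l‖ < ρ) → (∀ l, Complex.exp (t l) = z l) → P z t = P' z (-t)) {D δ : ℕ}
    {z : Fin p → ℂ} (h : Pool.Agent.NH25.UF.Pnt D P' r δ z) : StatementForAll P r D δ z := by
  obtain ⟨hz, s, rfl, hs⟩ := h
  intro K₀ hK₀ hKD t ht F hF h0
  have hmap : ∀ y : ι → ℂ, MvPolynomial.aeval y (F.map (algebraMap (residueField K₀ fun l => (s l : ℂ)) ℂ)) =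
      MvPolynomial.aeval y F := by
    intro y
    rw [MvPolynomial.aeval_map_algebraMap]
  obtain ⟨h1, h2⟩ := hs K₀ hK₀ hKD (-t) fun l => by
    rw [Pi.neg_apply, Complex.exp_neg, ht l, one_div]
  have hd : (F.map (algebraMap (residueField K₀ fun l => (s l : ℂ)) ℂ)).totalDegree ≤ δ :=
    (Finset.sup_mono (MvPolynomial.support_map_subset _ _)).trans hF
  have hc : ∀ e, (F.map (algebraMap (residueField K₀ fun l => (s l : ℂ)) ℂ)).coeff e ∈
      K₀ ⊔ IntermediateField.adjoin ℚ (Set.range fun l => (s l : ℂ)) := fun e => by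
    rw [MvPolynomial.coeff_map]
    exact (F.coeff e).2
  have hv : MvPolynomial.aeval (P' (fun l => (s l : ℂ)) (-t))
      (F.map (algebraMap (residueField K₀ fun l => (s l : ℂ)) ℂ)) = 0 := by
    rw [hmap, ← hP _ t (fun l => (hz l).trans_le hrρ) ht]
    exact h0
  refine ⟨?_, fun hna => ?_⟩
  · obtain ⟨𝔮, h𝔮, F', hF', hFF⟩ := h1 _ hd hc hv
    refine ⟨_, ⟨𝔮, ?_, rfl⟩, fun y hy => ?_⟩
    · rw [fibreIdeal_eq R hr hrρ hp hP s]
      exact h𝔮
    · rw [← hmap, ← hFF, MvPolynomial.aeval_map_algebraMap]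
      exact hy F' hF'
  · obtain ⟨G, hG1, hG2, hG3⟩ := h2 (noAlg_of R hr hrρ hp hP hna) _ hd hc hv
    have hG : Holds P r G := (holds_iff R hr hrρ hp hP G).2 (Pool.Agent.NH25.UF.mem_relI.2 hG2)
    refine ⟨fun y hy => ?_, G, hG1, hG, hG3⟩
    rw [← hmap, ← hG3]
    exact hy G hG

/-- the conclusion from a representation -/
theorem windows_of [Finite ι] {P P' : (Fin p → ℂ) → (Fin p → ℂ) → ι → ℂ} {ρ : ℝ} (hρ : 0 < ρ) {L : Type} [Field L]
    [NumberField L] [Algebra L ℂ] {n : Fin p → ℕ} {N : ∀ l, Matrix (Fin (n l)) (Fin (n l)) ℤ}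
    {H : ∀ l, Matrix (Fin (n l)) (Fin (n l)) (PowerSeries L)} (hH : ∀ l, LFam (N l) (H l)) (R : RepL P' ρ H)
    (hP : ∀ z t : Fin p → ℂ, (∀ l, ‖z l‖ < ρ) → (∀ l, Complex.exp (t l) = z l) → P z t = P' z (-t)) : Windows P ρ := by
  classical
  have := Fintype.ofFinite ι
  obtain ⟨r, hr, hrr, hAn, -, hwin⟩ := Pool.Agent.NH25.UF.full_count R hρ hH
  refine ⟨r, hr, hrr, fun δ D m A => ?_⟩
  obtain ⟨M, E, hME⟩ := hwin δ D m (2 * A + 2)
  refine ⟨M, E + 1, fun ξ G hξ hGξ => ?_⟩
  have hG1 : ∀ l, (1 : ℝ) ≤ (G l : ℝ) + 2 := fun l => by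
    have : (0 : ℝ) ≤ G l := Nat.cast_nonneg _
    linarith
  have hξ2 : ∀ l, (2 : ℝ) ≤ ‖ξ l‖ := by
    intro l
    refine le_trans ?_ (hGξ l)
    have h1 : (2 : ℝ) ≤ (G l : ℝ) + 2 := by
      have : (0 : ℝ) ≤ G l := Nat.cast_nonneg _
      linarith
    exact h1.trans (le_self_pow₀ (hG1 l) (by omega))
  have hpt : ∀ l, ∃ (K₁ : IntermediateField ℚ ℂ) (ξ' : K₁), FiniteDimensional ℚ K₁ ∧ Module.finrank ℚ K₁ ≤ m ∧
      (ξ' : ℂ) = ξ l ∧ Al.Pt K₁ ξ' (‖ξ l‖ ^ A * (‖ξ l‖ ^ A + 2)) := by
    intro l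
    obtain ⟨f, hf0, hfd, hfY, hf⟩ := hξ l
    exact Al.pt_root hf0 hfd hfY hf
  choose K ξ' h1 h2 h3 h4 using hpt
  refine le_trans ?_ (hME G K ξ' _ h1 h2 h4 (fun l => ?_) (fun l => ?_))
  · rw [← Set.ncard_coe_finset, Finset.coe_filter]
    refine Set.ncard_le_ncard (fun g hg => ?_) ((Finset.finite_toSet _).subset fun g hg => hg.1)
    obtain ⟨hg1, hg2⟩ := hg
    refine ⟨Fintype.mem_piFinset.2 fun l => Finset.mem_Icc.2 (abs_le.1 (hg1 l)), fun hh => hg2 ?_⟩
    simp only [h3] at hh
    exact ⟨hh.1, statement_of R hr hrr hAn hP hh⟩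
  · rw [h3]
    exact (pow_le_pow_right₀ (hG1 l) (by omega)).trans (hGξ l)
  · rw [h3]
    have h5 : (1 : ℝ) ≤ ‖ξ l‖ ^ A := one_le_pow₀ (by linarith [hξ2 l])
    calc ‖ξ l‖ ^ A * (‖ξ l‖ ^ A + 2) ≤ ‖ξ l‖ ^ A * (‖ξ l‖ ^ A * ‖ξ l‖ ^ 2) := by
          refine mul_le_mul_of_nonneg_left ?_ (by positivity)
          have h6 : (4 : ℝ) ≤ ‖ξ l‖ ^ 2 := by nlinarith [hξ2 l]
          have h7 : ‖ξ l‖ ^ A * 4 ≤ ‖ξ l‖ ^ A * ‖ξ l‖ ^ 2 := mul_le_mul_of_nonneg_left h6 (by positivity)
          linarith
      _ = ‖ξ l‖ ^ (2 * A + 2) := by ring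

end proof

/-- **The theorem.** -/
theorem result :
    -- families of functions which are represented by G-functions and logarithms
    (∀ (p : ℕ) (ι : Type) (_ : Finite ι) (P : (Fin p → ℂ) → (Fin p → ℂ) → ι → ℂ) (ρ : ℝ), 0 < ρ → LogRepresented P ρ →
      Windows P ρ) ∧
    -- the periods of families of curves
    (∀ (p : ℕ) (X : Fin p → CurveFamily), 1 ≤ p → ∃ E : Finset ℂ, ∀ c : Fin p → ℂ,
      (∀ l, IsAlgebraic ℚ (c l) ∧ c l ∉ E) → ∀ (q : ℕ) (ρ : ℝ) (σ : Fin p → ℕ)
      (γ : ∀ l, Fin (σ l) → TransportedLoop (X l) (c l) ρ) (w : Fin q → ℂ), 0 < ρ → Windows (periods X c γ w) ρ) := by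
  classical
  refine ⟨?_, ?_⟩
  · intro p ι _ P ρ hρ h
    obtain ⟨P', L, i1, i2, i3, n, N, H, hH, ⟨R⟩, hP⟩ := rep_of h
    exact windows_of hρ hH R hP
  · intro p X hp
    obtain ⟨E, hE⟩ := Pool.Agent.NH25.CV.curves_rep (fun l => (X l).F) (fun l => (X l).Q) (fun l => (X l).monic)
      (fun l => (X l).degree_pos) (fun l => (X l).ne_zero) (fun l => (X l).unramified) (fun l => (X l).r)
      (fun l => (X l).P) (fun l => (X l).k)
    refine ⟨E, fun c hc q ρ σ γ w hρ => ?_⟩
    obtain ⟨K, hK, n, f, A, Z, W, hD, ρ', hρ', hrep⟩ := hE c hc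
    have hnf : NumberField K := { to_charZero := inferInstance, to_finiteDimensional := hK }
    have hrep' : ∀ i : (Σ l, Fin (σ l) × Fin (X l).r) ⊕ Fin q, ∃ (l : Fin p) (c₀ : ℂ) (cc : Fin (n l) → Fin (n l) → ℂ),
        ∀ z : Fin p → ℂ, (∀ l, ‖z l‖ < min ρ ρ') → periods X c γ w z 0 i = c₀ + ∑ a, ∑ b, cc a b *
          Pool.Agent.Y921.DB.VL (Z l a b) (z l) := by
      rintro (⟨l, s, i⟩ | j)
      · obtain ⟨cc, hcc⟩ := hrep (min ρ ρ') (lt_min hρ hρ') (min_le_right _ _) l (γ l s).x (γ l s).y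
          (Pool.Agent.NH25.CV.Lpp.mono ⟨(γ l s).smooth, (γ l s).continuous, (γ l s).closed_x, (γ l s).closed_y,
            (γ l s).curve, (γ l s).away⟩ (min_le_left _ _)) i
        refine ⟨l, 0, cc, fun z hz => ?_⟩
        rw [zero_add]
        exact hcc (z l) (hz l)
      · refine ⟨⟨0, hp⟩, w j, 0, fun z hz => ?_⟩
        simp [periods]
    choose co c₀ cc hcc using hrep'
    let R : Pool.Agent.NH25.DG.Rep (fun z => periods X c γ w z 0) (min ρ ρ') Z := ⟨co, c₀, cc, fun z hz i => hcc i z hz⟩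
    obtain ⟨r, hr, hrr, ⟨R'⟩⟩ := Pool.Agent.NH25.DL.Rep.toL (lt_min hρ hρ') R hD
    obtain ⟨r', h1, h2, h3⟩ := windows_of (P := periods X c γ w) (P' := fun z _ => periods X c γ w z 0) hr
      (fun l => Pool.Agent.NH25.DL.lfam_of (hD l)) R' (fun z t _ _ => rfl)
    exact ⟨r', h1, h2.trans (hrr.trans (min_le_left _ _)), h3⟩

end Pool.Agent.Results.MP_290158_ag.WindowsFamiliesOfCurves
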