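import Pool.Agent.NH25.DL.Nrm
import Pool.Agent.NH25.CV.All

/-!
# Windows of algebraic points near a degenerate fibre, and the degree-bounded statement over the residue field

Let `X_l → U_l`, `1 ≤ l ≤ p`, be families of smooth projective varieties over curves over a number field, `z_l` a coordinate
at a point of the smooth compactification of `U_l` at which the local monodromy is unipotent (for example trivial; the
general case reduces to this one by a base change `z = w ^ k`), and `S = U_1 × … × U_p`. Near this point the multivalued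
period matrix of `X_l` is `C_l exp(t_l N_l) H_l(z_l)`, where `t_l` is a value of `log z_l`, `C_l` a constant matrix, `N_l`
nilpotent and `exp(t N_l) H_l` a fundamental matrix of the Picard-Fuchs system over a number field, normalised by
`H_l(0) = 1`; the entries of `H_l` and `H_l⁻¹` are G-functions (André). Hence all branches of all the periods, together with
any constants, are functions as in `LogRepresented`: polynomials in the logarithm `t_l` whose coefficients are linear
combinations with complex coefficients of `1` and the entries of `H_l(z_l)`, for some `l`. The definition makes no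
reference to geometry.

For a number field `K₀` and an algebraic point `s` of `S` the field of definition is `κ(s) = K₀(s_1, …, s_p)`. The degree
`δ` statement (`DegreeStatement`) at `s`: for every branch of the functions `P` at `s` and every polynomial `F` with
coefficients in `κ(s)` and of total degree at most `δ` with `F(P(s)) = 0`,

* `F` is the value at `s` of a polynomial `G` over `ℚ̄[z_1, …, z_p]` of total degree at most `δ` with `G(z, P(z)) = 0` for all `z` near
  `0` and all branches;
* in particular `F` is in the ideal of the fibre over `s` of the Zariski closure over `ℚ̄` of the graph of the multivalued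
  function `P`.

The second condition says that `F` is not a relation of degree at most `δ` over `κ(s)` in the sense of the problem.

**Theorem.** For all `δ`, `D`, `m`, `A` there are `M` and `E` such that for all number fields `K₀` of degree at most `D`, all tuples
`ξ = (ξ_1, …, ξ_p)` of algebraic numbers of degree at most `m` and of height at most `|ξ_l| ^ A`, and all `H_l` with
`(H_l + 2) ^ E ≤ |ξ_l|`, the degree `δ` statement holds at the points `s = (1 / (ξ_1 + g_1), …, 1 / (ξ_p + g_p))`, `g_l ∈ ℤ`,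
`|g_l| ≤ H_l`, with at most `M ∑_l ∏_{l' ≠ l} (2 H_{l'} + 1)` exceptions. For `p = 1` these are at most `M` exceptions in every window of
translates of `ξ`, whatever the length of the window, with `M` depending only on the family and on `δ`, `D`, `m`, `A`: of any
`M + 1` points `1 / (ξ + g)` of a window at least one has no relation of degree at most `δ` over `κ(s)`.

This is proved for all functions as in `LogRepresented`. There is no hypothesis on the monodromy group or on the Hodge locus.

**All families of curves.** Let `F_l(z, x, y)` be polynomials over `ℚ̄`, monic in `y`, and `Q_l(z, x) ≠ 0` polynomials over `ℚ̄` such that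
`F_l(z, x, Y)` has no multiple root when `Q_l(z, x) ≠ 0`: families of curves `F_l(z, x, y) = 0, Q_l(z, x) ≠ 0` (`CurveFamily`); every
family of smooth curves over a curve is of this form over an open subset of the base. There is a finite set `E` such that near
every centre `c` with algebraic coordinates outside `E` the same conclusion holds for the periods
`∮ P(z, x, y) dx / Q(z, x) ^ k` over closed paths which are transported to the neighbouring fibres (`TransportedLoop`; every closed
path on the curve `U_c` which avoids the zeros of `Q(c, x)` and for which `x(t)` is continuously differentiable has a unique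
transport for small `|z - c|`), together with arbitrary constants. The functions are written in the coordinate `z - c`. Here
nothing about G-functions is assumed: the theorem of André for `H^1` of families of curves is proved
(`Pool/Agent/NH25/CV`, with many coauthors).

What was known: the points with the degree `δ` property are dense in the analytic topology; for `y ^ 2 = g(x) (x - t)` they
contain almost all integers `t`; the starting files treat windows of points `1 / n`, `n` an integer, for families of cyclic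
covers (smooth fibre at the centre) and a fixed number field `K` in place of `κ(s)`; `AllFamiliesOfCurves` counts
algebraic points of bounded degree near a smooth fibre, without a bound for the exceptions near a given point.

Proof (`Pool/Agent/NH25/DL`). Let `w_e` be a basis of the space over `ℚ(z)` which is spanned by the monomials of degree at
most `δ` in the entries of `H`. If many translates `ξ + g` have a relation `∑ c_{e, i} w_e(1 / (ξ + g)) log(ξ + g) ^ i = 0` with
coefficients in a space `V` over `ℚ` of bounded dimension, then, as `log(ξ + g) = log ξ + log(1 + g / ξ)` modulo `2 π i`, the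
products of the values of `w_e log(1 + g / ξ) ^ i` at these points generate a space over `ℚ(ξ)` of small dimension; this
contradicts a lower bound for the dimension by a Siegel lemma argument for G-functions of `1 / ξ`, uniform in the translates.
As `V` we take `κ(s)` times the space of the coefficients in the period relations; the field `κ(s)` does not change under
translations. A relation over `κ(s)` of degree `δ` between the periods thus gives linear relations for its coefficients over
`ℚ̄`, which are specialisations of the linear relations over `ℚ̄(z)` which define the functional relations; outside a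
hypersurface the solutions of the specialised linear system are the specialisations of the solutions.
-/

set_option autoImplicit false

open PowerSeries Filter

namespace Pool.Agent.Results.MP_290158_ag.WindowsOverResidueField

section systems

variable {L : Type} [Field L]

/-- The arithmetic conditions in the definition of a G-function over the number field `L`: geometric growth of all
conjugates of the coefficients and of their common denominators. -/
def GFunction (g : PowerSeries L) : Prop := ∃ A : ℝ, (∀ (φ : L →+* ℂ) (m : ℕ), ‖φ (coeff m g)‖ ≤ A ^ (m + 1)) ∧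
  ∀ m, ∃ d : ℕ, 0 < d ∧ (d : ℝ) ≤ A ^ (m + 1) ∧ ∀ j ≤ m, IsIntegral ℤ ((d : L) * coeff j g)

/-- The matrix `Y = z ^ N H(z)` with `N` nilpotent and `H(0) = 1` is a fundamental matrix (rows: solutions) of a system
`f z Y' = Y A` over `L(z)` with `f(0) ≠ 0`, and the entries of `H` and of the inverse matrix are G-functions. -/
structure UnipotentMatrix {n : ℕ} (N : Matrix (Fin n) (Fin n) ℤ) (H : Matrix (Fin n) (Fin n) (PowerSeries L)) : Prop where
  /-- `N` is nilpotent -/
  nilpotent : N ^ n = 0
  /-- the normalisation -/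
  one : ∀ i j, coeff 0 (H i j) = if i = j then 1 else 0
  /-- the system: `f (z H' + N H) = H A` with `f(0) ≠ 0` -/
  ode : ∃ (f : Polynomial L) (A : Matrix (Fin n) (Fin n) (Polynomial L)), f.coeff 0 ≠ 0 ∧
    ∀ i j, (f : PowerSeries L) * (X * PowerSeries.derivative L (H i j) + ∑ k, C (N i k : L) * H k j) =
      ∑ k, H i k * (A k j : PowerSeries L)
  /-- the entries are G-functions -/
  gfun : ∀ i j, GFunction (H i j)
  /-- the entries of the inverse matrix are G-functions -/
  inv : ∃ W : Matrix (Fin n) (Fin n) (PowerSeries L), H * W = 1 ∧ ∀ i j, GFunction (W i j)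

/-- the value of a power series -/
noncomputable def value [Algebra L ℂ] (g : PowerSeries L) (z : ℂ) : ℂ := ∑' m : ℕ, algebraMap L ℂ (coeff m g) * z ^ m

end systems

/-- `P z t` are the values of multivalued functions at the point `z` of the punctured polydisc of radius `ρ`, for the values
`t` of the logarithms of the coordinates of `z`. There are a number field `L` in `ℂ` and matrices `H_1, …, H_p` over `L` as in
`UnipotentMatrix` such that every function `P i` is for some `l` a polynomial in the logarithm `t_l` whose coefficients are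
linear combinations, with complex coefficients, of `1` and the entries of `H_l(z_l)`. -/
def LogRepresented {p : ℕ} {ι : Type} (P : (Fin p → ℂ) → (Fin p → ℂ) → ι → ℂ) (ρ : ℝ) : Prop :=
  ∃ (L : Type) (_ : Field L) (_ : NumberField L) (_ : Algebra L ℂ) (n : Fin p → ℕ)
    (N : ∀ l, Matrix (Fin (n l)) (Fin (n l)) ℤ) (H : ∀ l, Matrix (Fin (n l)) (Fin (n l)) (PowerSeries L)) (e : ℕ),
    (∀ l, UnipotentMatrix (N l) (H l)) ∧
    ∀ i, ∃ (l : Fin p) (c₀ : Fin (e + 1) → ℂ) (c : Fin (e + 1) → Matrix (Fin (n l)) (Fin (n l)) ℂ),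
      ∀ z t : Fin p → ℂ, (∀ l, ‖z l‖ < ρ) → (∀ l, Complex.exp (t l) = z l) →
        P z t i = ∑ j, (c₀ j + ∑ a, ∑ b, c j a b * value (H l a b) (z l)) * t l ^ (j : ℕ)

section statement

/-- The field of all algebraic numbers. -/
noncomputable abbrev QBar : IntermediateField ℚ ℂ := algebraicClosure ℚ ℂ

variable {p : ℕ} {ι : Type}

/-- a polynomial over `ℚ̄[z_1, …, z_p]` at a point `z` -/
noncomputable def special (G : MvPolynomial ι (MvPolynomial (Fin p) QBar)) (z : Fin p → ℂ) : MvPolynomial ι ℂ :=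
  G.map (MvPolynomial.aeval z : MvPolynomial (Fin p) QBar →ₐ[QBar] ℂ).toRingHom

/-- `G(z, P(z)) = 0` for all `z` in the punctured polydisc of radius `r` and all branches of `P` at `z` -/
def Holds (P : (Fin p → ℂ) → (Fin p → ℂ) → ι → ℂ) (r : ℝ) (G : MvPolynomial ι (MvPolynomial (Fin p) QBar)) : Prop :=
  ∀ z t : Fin p → ℂ, (∀ l, ‖z l‖ < r) → (∀ l, Complex.exp (t l) = z l) → MvPolynomial.aeval (P z t) (special G z) = 0

/-- The fibre over `s` of the Zariski closure over the algebraic numbers of the graph of the multivalued function `P` over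
the punctured polydisc of radius `r`. -/
def closureFibre (P : (Fin p → ℂ) → (Fin p → ℂ) → ι → ℂ) (r : ℝ) (s : Fin p → ℂ) : Set (ι → ℂ) :=
  {y | ∀ G : MvPolynomial ι (MvPolynomial (Fin p) QBar), Holds P r G → MvPolynomial.aeval y (special G s) = 0}

/-- The residue field `κ(s) = K₀(s_1, …, s_p)`. -/
noncomputable def residueField (K₀ : IntermediateField ℚ ℂ) (s : Fin p → ℂ) : IntermediateField ℚ ℂ :=
  K₀ ⊔ IntermediateField.adjoin ℚ (Set.range s)

/-- The degree `δ` statement at `s`, for all branches `P(s)`: every polynomial `F` of total degree at most `δ` with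
coefficients in `κ(s)` which vanishes at `P(s)` is the value at `s` of a relation over `ℚ̄[z]`, of total degree at most `δ`,
which holds on the graph of `P`; and it vanishes on the fibre over `s` of the Zariski closure of this graph. -/
def DegreeStatement (P : (Fin p → ℂ) → (Fin p → ℂ) → ι → ℂ) (r : ℝ) (K₀ : IntermediateField ℚ ℂ) (δ : ℕ)
    (s : Fin p → ℂ) : Prop :=
  ∀ t : Fin p → ℂ, (∀ l, Complex.exp (t l) = s l) →
  ∀ F : MvPolynomial ι (residueField K₀ s), F.totalDegree ≤ δ → MvPolynomial.aeval (P s t) F = 0 →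
    (∃ G : MvPolynomial ι (MvPolynomial (Fin p) QBar), G.totalDegree ≤ δ ∧ Holds P r G ∧
      special G s = F.map (algebraMap (residueField K₀ s) ℂ)) ∧
    ∀ y ∈ closureFibre P r s, MvPolynomial.aeval y F = 0

end statement

/-- `ξ` is a root of a nonzero integral polynomial of degree at most `m` with coefficients of size at most `|ξ| ^ A` -/
def Height (m A : ℕ) (ξ : ℂ) : Prop :=
  ∃ f : Polynomial ℤ, f ≠ 0 ∧ f.natDegree ≤ m ∧ (∀ j, |(f.coeff j : ℝ)| ≤ ‖ξ‖ ^ A) ∧ Polynomial.aeval ξ f = 0

/-- The translations `g` in the window with the half side lengths `H_l` for which the point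
`s = (1 / (ξ_1 + g_1), …, 1 / (ξ_p + g_p))` is not in the polydisc of radius `r` or the degree `δ` statement at `s` fails. -/
def Exceptional {p : ℕ} {ι : Type} (P : (Fin p → ℂ) → (Fin p → ℂ) → ι → ℂ) (r : ℝ) (K₀ : IntermediateField ℚ ℂ) (δ : ℕ)
    (ξ : Fin p → ℂ) (H : Fin p → ℕ) : Set (Fin p → ℤ) :=
  {g | (∀ l, |g l| ≤ (H l : ℤ)) ∧ ¬ ((∀ l, ‖1 / (ξ l + (g l : ℂ))‖ < r) ∧
    DegreeStatement P r K₀ δ fun l => 1 / (ξ l + (g l : ℂ)))}

/-- The conclusion of the theorem, for a family of multivalued functions `P` on the punctured polydisc of radius `ρ`. -/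
def Windows {p : ℕ} {ι : Type} (P : (Fin p → ℂ) → (Fin p → ℂ) → ι → ℂ) (ρ : ℝ) : Prop :=
  ∃ r : ℝ, 0 < r ∧ r ≤ ρ ∧ ∀ δ D m A : ℕ, ∃ M E : ℕ, ∀ K₀ : IntermediateField ℚ ℂ, FiniteDimensional ℚ K₀ →
    Module.finrank ℚ K₀ ≤ D → ∀ (ξ : Fin p → ℂ) (H : Fin p → ℕ), (∀ l, Height m A (ξ l)) →
    (∀ l, ((H l : ℝ) + 2) ^ E ≤ ‖ξ l‖) →
    (Exceptional P r K₀ δ ξ H).ncard ≤ M * ∑ l, ∏ l' ∈ Finset.univ.erase l, (2 * H l' + 1)

section curves

/-- The polynomial `F(z, x, Y)` in `Y`, for `F` in `ℚ̄[z][x][Y]`. -/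
noncomputable def fibre (F : Polynomial (Polynomial (Polynomial QBar))) (z x : ℂ) : Polynomial ℂ :=
  F.map ((Polynomial.evalRingHom x).comp (Polynomial.mapRingHom (Polynomial.eval₂RingHom (algebraMap QBar ℂ) z)))

/-- The value `Q(z, x)`, for `Q` in `ℚ̄[z][x]`. -/
noncomputable def point (Q : Polynomial (Polynomial QBar)) (z x : ℂ) : ℂ :=
  (Q.map (Polynomial.eval₂RingHom (algebraMap QBar ℂ) z)).eval x

/-- A family of curves `U_z : F(z, x, y) = 0, Q(z, x) ≠ 0` over the algebraic numbers, unramified over the `x`-line without the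
zeros of `Q(z, x)`, with `r` forms `P_i(z, x, y) dx / Q(z, x) ^ k_i`. -/
structure CurveFamily where
  F : Polynomial (Polynomial (Polynomial QBar))
  Q : Polynomial (Polynomial QBar)
  /-- `F` is monic in `y` -/
  monic : F.Monic
  degree_pos : 0 < F.natDegree
  ne_zero : Q ≠ 0
  /-- if `Q(z, x) ≠ 0` then `F(z, x, Y)` has no multiple root -/
  unramified : ∀ z x : ℂ, point Q z x ≠ 0 → (fibre F z x).Separable
  /-- the number of forms -/
  r : ℕ
  P : Fin r → Polynomial (Polynomial (Polynomial QBar))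
  k : Fin r → ℕ

/-- A closed path on the curve `U_c` and its transport `(x(t), y(z, t))` to the curves `U_z`, `|z - c| < ρ`. -/
structure TransportedLoop (X : CurveFamily) (c : ℂ) (ρ : ℝ) where
  x : ℝ → ℂ
  y : ℂ → ℝ → ℂ
  smooth : ContDiff ℝ 1 x
  continuous : ContinuousOn (fun v : ℂ × ℝ => y v.1 v.2) (Metric.ball c ρ ×ˢ Set.Icc (0 : ℝ) 1)
  closed_x : x 0 = x 1
  closed_y : ∀ z ∈ Metric.ball c ρ, y z 0 = y z 1
  curve : ∀ z ∈ Metric.ball c ρ, ∀ t ∈ Set.Icc (0 : ℝ) 1, (fibre X.F z (x t)).eval (y z t) = 0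
  away : ∀ z ∈ Metric.ball c ρ, ∀ t ∈ Set.Icc (0 : ℝ) 1, point X.Q z (x t) ≠ 0

/-- The period of the `i`-th form over the transported loop on `U_z`. -/
noncomputable def period {X : CurveFamily} {c : ℂ} {ρ : ℝ} (γ : TransportedLoop X c ρ) (i : Fin X.r) (z : ℂ) : ℂ :=
  ∫ t in (0 : ℝ)..1, (fibre (X.P i) z (γ.x t)).eval (γ.y z t) / point X.Q z (γ.x t) ^ X.k i * deriv γ.x t

/-- The periods of `p` families of curves over `σ l` transported loops, as (single-valued) functions of `z - c`, and the constants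
`w`. -/
noncomputable def periods {p q : ℕ} (X : Fin p → CurveFamily) (c : Fin p → ℂ) {ρ : ℝ} {σ : Fin p → ℕ}
    (γ : ∀ l, Fin (σ l) → TransportedLoop (X l) (c l) ρ) (w : Fin q → ℂ) (z _t : Fin p → ℂ) :
    (Σ l, Fin (σ l) × Fin (X l).r) ⊕ Fin q → ℂ :=
  Sum.elim (fun v => period (γ v.1 v.2.1) v.2.2 (c v.1 + z v.1)) w

end curves

section proof

open Pool.Agent.NH25.DL Pool.Agent.Y921.DB Pool.Agent.Y916

variable {p : ℕ} {ι : Type}

theorem holds_of {P : (Fin p → ℂ) → (Fin p → ℂ) → ι → ℂ} {r : ℝ} {G : MvPolynomial ι (MvPolynomial (Fin p) QBar)}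
    (h : ∀ z t : Fin p → ℂ, (∀ l, ‖z l‖ < r) → (∀ l, Complex.exp (t l) = z l) →
      G.eval₂ (MvPolynomial.aeval z : MvPolynomial (Fin p) QBar →ₐ[QBar] ℂ).toRingHom (P z t) = 0) : Holds P r G := by
  intro z t hz ht
  unfold special
  rw [MvPolynomial.aeval_def, MvPolynomial.eval₂_map]
  exact h z t hz ht

theorem degree_of_spec {P P' : (Fin p → ℂ) → (Fin p → ℂ) → ι → ℂ} {r : ℝ} {K₀ : IntermediateField ℚ ℂ} {δ : ℕ}
    {s : Fin p → ℂ} (hP : ∀ z t : Fin p → ℂ, (∀ l, ‖z l‖ < r) → (∀ l, Complex.exp (t l) = z l) → P z t = P' z (-t))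
    (h : Gd K₀ P' r δ s) : DegreeStatement P r K₀ δ s := by
  intro t ht F hF h0
  have hmap : ∀ y : ι → ℂ, MvPolynomial.aeval y (F.map (algebraMap (residueField K₀ s) ℂ)) = MvPolynomial.aeval y F := by
    intro y
    rw [MvPolynomial.aeval_map_algebraMap]
  obtain ⟨G, h1, h2, h3⟩ := h.2 (-t) (fun l => by rw [Pi.neg_apply, Complex.exp_neg, ht l, one_div])
    (F.map (algebraMap (residueField K₀ s) ℂ))
    ((Finset.sup_mono (MvPolynomial.support_map_subset _ _)).trans hF) (fun e => by
      rw [MvPolynomial.coeff_map]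
      exact (F.coeff e).2) (by rw [hmap, ← hP s t h.1 ht]; exact h0)
  have h4 : Holds P r G := holds_of fun z t' hz ht' => by
    rw [hP z t' hz ht']
    exact h2 z hz (-t')
  refine ⟨⟨G, h1, h4, h3⟩, fun y hy => ?_⟩
  rw [← hmap, ← h3]
  exact hy G h4

/-- the data of a representation -/
theorem rep_of {P : (Fin p → ℂ) → (Fin p → ℂ) → ι → ℂ} {ρ : ℝ} (h : LogRepresented P ρ) :
    ∃ (P' : (Fin p → ℂ) → (Fin p → ℂ) → ι → ℂ) (L : Type) (_ : Field L) (_ : NumberField L) (_ : Algebra L ℂ)
      (n : Fin p → ℕ) (N : ∀ l, Matrix (Fin (n l)) (Fin (n l)) ℤ)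
      (H : ∀ l, Matrix (Fin (n l)) (Fin (n l)) (PowerSeries L)), (∀ l, LFam (N l) (H l)) ∧ Nonempty (RepL P' ρ H) ∧
      ∀ z t : Fin p → ℂ, (∀ l, ‖z l‖ < ρ) → (∀ l, Complex.exp (t l) = z l) → P z t = P' z (-t) := by
  obtain ⟨L, i1, i2, i3, n, N, H, e, hH, hP⟩ := h
  choose co c₀ c hc using hP
  refine ⟨fun z t i => ∑ j : Fin (e + 1), ((-1) ^ (j : ℕ) * c₀ i j + ∑ a, ∑ b, ((-1) ^ (j : ℕ) * c i j a b) *
    value (H (co i) a b) (z (co i))) * t (co i) ^ (j : ℕ), L, i1, i2, i3, n, N, H, fun l => ?_, ⟨⟨e, co,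
      fun i j => (-1) ^ (j : ℕ) * c₀ i j, fun i j => Matrix.of fun a b => (-1) ^ (j : ℕ) * c i j a b,
      fun z hz t i => rfl⟩⟩, fun z t hz ht => ?_⟩
  · obtain ⟨f, A, hf, hode⟩ := (hH l).ode
    obtain ⟨W, hW, hWG⟩ := (hH l).inv
    exact ⟨(hH l).nilpotent, (hH l).one, ⟨f, fun i j => A i j, hf, hode⟩, fun i j => (hH l).gfun i j,
      ⟨W, hW, fun i j => hWG i j⟩⟩
  · funext i
    rw [hc i z t hz ht]
    refine Finset.sum_congr rfl fun j _ => ?_
    have h3 : (-t) (co i) ^ (j : ℕ) = (-1) ^ (j : ℕ) * t (co i) ^ (j : ℕ) := by rw [Pi.neg_apply, neg_pow]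
    have h1 : ((-1 : ℂ) ^ (j : ℕ)) * (-1) ^ (j : ℕ) = 1 := by
      rw [← mul_pow]
      simp
    have h2 : (-1) ^ (j : ℕ) * c₀ i j + ∑ a, ∑ b, ((-1) ^ (j : ℕ) * c i j a b) * value (H (co i) a b) (z (co i)) =
        (-1) ^ (j : ℕ) * (c₀ i j + ∑ a, ∑ b, c i j a b * value (H (co i) a b) (z (co i))) := by
      rw [mul_add, Finset.mul_sum]
      congr 1
      refine Finset.sum_congr rfl fun a _ => ?_
      rw [Finset.mul_sum]
      exact Finset.sum_congr rfl fun b _ => by ring
    rw [h2, h3]
    linear_combination (-(c₀ i j + ∑ a, ∑ b, c i j a b * value (H (co i) a b) (z (co i)))) * t (co i) ^ (j : ℕ) * h1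

/-- the conclusion from a representation -/
theorem windows_of [Finite ι] {P P' : (Fin p → ℂ) → (Fin p → ℂ) → ι → ℂ} {ρ : ℝ} (hρ : 0 < ρ) {L : Type} [Field L]
    [NumberField L] [Algebra L ℂ] {n : Fin p → ℕ} {N : ∀ l, Matrix (Fin (n l)) (Fin (n l)) ℤ}
    {H : ∀ l, Matrix (Fin (n l)) (Fin (n l)) (PowerSeries L)} (hH : ∀ l, LFam (N l) (H l)) (R : RepL P' ρ H)
    (hP : ∀ z t : Fin p → ℂ, (∀ l, ‖z l‖ < ρ) → (∀ l, Complex.exp (t l) = z l) → P z t = P' z (-t)) : Windows P ρ := by
  classical
  have := Fintype.ofFinite ι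
  obtain ⟨r, hr, hrr, -, hwin⟩ := R.count hρ hH
  refine ⟨r, hr, hrr, fun δ D m A => ?_⟩
  obtain ⟨M, E, hME⟩ := hwin δ D m (2 * A + 2)
  refine ⟨M, E + 1, fun K₀ hK₀ hKD ξ G hξ hGξ => ?_⟩
  have hG1 : ∀ l, (1 : ℝ) ≤ (G l : ℝ) + 2 := fun l => by
    have : (0 : ℝ) ≤ G l := Nat.cast_nonneg _
    linarith
  have hξ2 : ∀ l, (2 : ℝ) ≤ ‖ξ l‖ := by
    intro l
    refine le_trans ?_ (hGξ l)
    have h1 : (2 : ℝ) ≤ (G l : ℝ) + 2 := by
      have : (0 : ℝ) ≤ G l := Nat.cast_nonneg _
      linarith
    exact h1.trans (le_self_pow₀ (hG1 l) (by omega))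
  have hpt : ∀ l, ∃ (K₁ : IntermediateField ℚ ℂ) (ξ' : K₁), FiniteDimensional ℚ K₁ ∧ Module.finrank ℚ K₁ ≤ m ∧
      (ξ' : ℂ) = ξ l ∧ Al.Pt K₁ ξ' (‖ξ l‖ ^ A * (‖ξ l‖ ^ A + 2)) := by
    intro l
    obtain ⟨f, hf0, hfd, hfY, hf⟩ := hξ l
    exact Al.pt_root hf0 hfd hfY hf
  choose K ξ' h1 h2 h3 h4 using hpt
  refine le_trans ?_ (hME K₀ hK₀ hKD G K ξ' _ h1 h2 h4 (fun l => ?_) (fun l => ?_))
  · rw [← Set.ncard_coe_finset, Finset.coe_filter]
    refine Set.ncard_le_ncard (fun g hg => ?_) ((Finset.finite_toSet _).subset fun g hg => hg.1)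
    obtain ⟨hg1, hg2⟩ := hg
    refine ⟨Fintype.mem_piFinset.2 fun l => Finset.mem_Icc.2 (abs_le.1 (hg1 l)), fun hh => hg2 ?_⟩
    simp only [h3] at hh
    exact ⟨hh.1, degree_of_spec (fun z t hz ht => hP z t (fun l => (hz l).trans_le hrr) ht) hh⟩
  · rw [h3]
    exact (pow_le_pow_right₀ (hG1 l) (by omega)).trans (hGξ l)
  · rw [h3]
    have h5 : (1 : ℝ) ≤ ‖ξ l‖ ^ A := one_le_pow₀ (by linarith [hξ2 l])
    calc ‖ξ l‖ ^ A * (‖ξ l‖ ^ A + 2) ≤ ‖ξ l‖ ^ A * (‖ξ l‖ ^ A * ‖ξ l‖ ^ 2) := by
          refine mul_le_mul_of_nonneg_left ?_ (by positivity)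
          have h6 : (4 : ℝ) ≤ ‖ξ l‖ ^ 2 := by nlinarith [hξ2 l]
          have h7 : ‖ξ l‖ ^ A * 4 ≤ ‖ξ l‖ ^ A * ‖ξ l‖ ^ 2 := mul_le_mul_of_nonneg_left h6 (by positivity)
          linarith
      _ = ‖ξ l‖ ^ (2 * A + 2) := by ring

end proof

/-- **The theorem.** -/
theorem result :
    -- families of functions which are represented by G-functions and logarithms
    (∀ (p : ℕ) (ι : Type) (_ : Finite ι) (P : (Fin p → ℂ) → (Fin p → ℂ) → ι → ℂ) (ρ : ℝ), 0 < ρ → LogRepresented P ρ →
      Windows P ρ) ∧
    -- the periods of families of curves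
    (∀ (p : ℕ) (X : Fin p → CurveFamily), 1 ≤ p → ∃ E : Finset ℂ, ∀ c : Fin p → ℂ,
      (∀ l, IsAlgebraic ℚ (c l) ∧ c l ∉ E) → ∀ (q : ℕ) (ρ : ℝ) (σ : Fin p → ℕ)
      (γ : ∀ l, Fin (σ l) → TransportedLoop (X l) (c l) ρ) (w : Fin q → ℂ), 0 < ρ → Windows (periods X c γ w) ρ) := by
  classical
  refine ⟨?_, ?_⟩
  · intro p ι _ P ρ hρ h
    obtain ⟨P', L, i1, i2, i3, n, N, H, hH, ⟨R⟩, hP⟩ := rep_of h
    exact windows_of hρ hH R hP
  · intro p X hp
    obtain ⟨E, hE⟩ := Pool.Agent.NH25.CV.curves_rep (fun l => (X l).F) (fun l => (X l).Q) (fun l => (X l).monic)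
      (fun l => (X l).degree_pos) (fun l => (X l).ne_zero) (fun l => (X l).unramified) (fun l => (X l).r)
      (fun l => (X l).P) (fun l => (X l).k)
    refine ⟨E, fun c hc q ρ σ γ w hρ => ?_⟩
    obtain ⟨K, hK, n, f, A, Z, W, hD, ρ', hρ', hrep⟩ := hE c hc
    have hnf : NumberField K := { to_charZero := inferInstance, to_finiteDimensional := hK }
    have hrep' : ∀ i : (Σ l, Fin (σ l) × Fin (X l).r) ⊕ Fin q, ∃ (l : Fin p) (c₀ : ℂ) (cc : Fin (n l) → Fin (n l) → ℂ),
        ∀ z : Fin p → ℂ, (∀ l, ‖z l‖ < min ρ ρ') → periods X c γ w z 0 i = c₀ + ∑ a, ∑ b, cc a b *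
          Pool.Agent.Y921.DB.VL (Z l a b) (z l) := by
      rintro (⟨l, s, i⟩ | j)
      · obtain ⟨cc, hcc⟩ := hrep (min ρ ρ') (lt_min hρ hρ') (min_le_right _ _) l (γ l s).x (γ l s).y
          (Pool.Agent.NH25.CV.Lpp.mono ⟨(γ l s).smooth, (γ l s).continuous, (γ l s).closed_x, (γ l s).closed_y,
            (γ l s).curve, (γ l s).away⟩ (min_le_left _ _)) i
        refine ⟨l, 0, cc, fun z hz => ?_⟩
        rw [zero_add]
        exact hcc (z l) (hz l)
      · refine ⟨⟨0, hp⟩, w j, 0, fun z hz => ?_⟩
        simp [periods]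
    choose co c₀ cc hcc using hrep'
    let R : Pool.Agent.NH25.DG.Rep (fun z => periods X c γ w z 0) (min ρ ρ') Z := ⟨co, c₀, cc, fun z hz i => hcc i z hz⟩
    obtain ⟨r, hr, hrr, ⟨R'⟩⟩ := Pool.Agent.NH25.DL.Rep.toL (lt_min hρ hρ') R hD
    obtain ⟨r', h1, h2, h3⟩ := windows_of (P := periods X c γ w) (P' := fun z _ => periods X c γ w z 0) hr
      (fun l => Pool.Agent.NH25.DL.lfam_of (hD l)) R' (fun z t _ _ => rfl)
    exact ⟨r', h1, h2.trans (hrr.trans (min_le_left _ _)), h3⟩

end Pool.Agent.Results.MP_290158_ag.WindowsOverResidueField
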